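import Mathlib

set_option autoImplicit false

/-! The group of the units modulo the powers with a prime exponent. -/

namespace Pool.Agent.Helper58.BP

section

variable {p : ℕ} {E : Type} [Field E]

/-- the group of the classes -/
def Sc (p : ℕ) (E : Type) [Field E] : Type := Eˣ ⧸ (powMonoidHom p : Eˣ →* Eˣ).range

noncomputable instance : CommGroup (Sc p E) :=
  inferInstanceAs (CommGroup (Eˣ ⧸ (powMonoidHom p : Eˣ →* Eˣ).range))

/-- the class of a unit -/
noncomputable def cl : Eˣ →* Sc p E := QuotientGroup.mk' (powMonoidHom p : Eˣ →* Eˣ).range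

lemma cl_surj (a : Sc p E) : ∃ u : Eˣ, cl u = a := QuotientGroup.mk_surjective a

/-- a representative -/
noncomputable def rp (a : Sc p E) : Eˣ := Classical.choose (cl_surj a)

lemma cl_rp (a : Sc p E) : cl (rp a) = a := Classical.choose_spec (cl_surj a)

lemma cl_pw (c : Eˣ) : (cl (c ^ p) : Sc p E) = 1 := by
  exact (QuotientGroup.eq_one_iff _).2 ⟨c, rfl⟩

lemma cl_eq {u v : Eˣ} : (cl u : Sc p E) = cl v ↔ ∃ c : Eˣ, v = u * c ^ p := by
  refine QuotientGroup.eq.trans ?_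
  constructor
  · rintro ⟨c, hc⟩
    exact ⟨c, by rw [← mul_inv_cancel_left u v, ← hc]; rfl⟩
  · rintro ⟨c, rfl⟩
    exact ⟨c, by rw [inv_mul_cancel_left]; rfl⟩

lemma cl_one {u : Eˣ} : (cl u : Sc p E) = 1 ↔ ∃ c : Eˣ, u = c ^ p := by
  have := cl_eq (p := p) (u := (1 : Eˣ)) (v := u)
  rw [map_one, eq_comm] at this
  rw [this]
  simp only [one_mul]

lemma pw (a : Sc p E) : a ^ p = 1 := by
  obtain ⟨u, rfl⟩ := cl_surj a
  rw [← map_pow, cl_pw]

/-- inverting exponents -/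
lemma exists_inv (hp : p.Prime) {n : ℕ} (hn : ¬ p ∣ n) : ∃ m : ℕ, ∀ {A : Type} [CommGroup A] (a : A),
    a ^ p = 1 → (a ^ n) ^ m = a := by
  obtain ⟨m, -, h2⟩ := Nat.exists_mul_mod_eq_one_of_coprime
    ((Nat.Prime.coprime_iff_not_dvd hp).2 hn).symm hp.one_lt
  refine ⟨m, ?_⟩
  intro A _ a ha
  rw [← pow_mul, ← Nat.div_add_mod (n * m) p, h2, pow_add, pow_mul, ha, one_pow, one_mul, pow_one]

end

end Pool.Agent.Helper58.BP
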