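import Mathlib
import Pool.Agent.Helper58.BP.Cls
import Pool.Agent.Helper58.BP.Sys

set_option autoImplicit false

/-! Local fields of residue characteristic `p` with the roots of unity. -/

namespace Pool.Agent.Helper58.BP

open Pool.Agent.Helper58.EB Pool.Agent.Helper58.ET

/-- the properties of the valuation ring of a local field of characteristic zero with residue
characteristic `p`, and of the system of the norm groups -/
structure Lc {E : Type} [Field E] (O : ValuationSubring E) (ϖ x₀ G : Eˣ) (p : ℕ) (q l : E)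
    (N : Sc p E → Subgroup (Sc p E)) : Prop where
  pr : p.Prime
  hq : q = l ^ p
  ne : q ≠ 0
  lt : O.valuation q < 1
  symm : ∀ a b : Sc p E, b ∈ N a → a ∈ N b
  sum : ∀ u v : Eˣ, (u : E) + v = 1 → cl v ∈ N (cl u)
  neg : ∃ w : Eˣ, O.valuation ((w : E) - 1) < 1 ∧ (cl w : Sc p E) = cl (-1)
  vp : O.valuation (p : E) = O.valuation l ^ (p - 1)
  pv : O.valuation (ϖ : E) < 1
  mx : ∀ x : E, O.valuation x < 1 → O.valuation x ≤ O.valuation (ϖ : E)
  arch : ∀ x : E, O.valuation x < 1 → ∀ y : Eˣ, ∃ j : ℕ,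
    O.valuation x ^ j ≤ O.valuation (y : E)
  pf : ∀ a : E, O.valuation a ≤ 1 → ∃ b : E, O.valuation b ≤ 1 ∧ O.valuation (a - b ^ p) < 1
  root : ∀ y : E, O.valuation y < O.valuation q → ∃ s : Eˣ, (s : E) ^ p = 1 + y
  x0 : O.valuation (x₀ : E) = 1
  hG : (G : E) = 1 + q * x₀
  gen : ∀ z : E, O.valuation z ≤ 1 → ∀ t : Eˣ, (t : E) = 1 + q * z →
    ∃ n : ℕ, (cl t : Sc p E) = cl G ^ n
  even : ∀ v : Eˣ, cl v ∈ N (cl G) → ∃ s : Eˣ, O.valuation (v : E) = O.valuation (s : E) ^ p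

section

variable {E : Type} [Field E] {O : ValuationSubring E} {ϖ x₀ G : Eˣ} {p : ℕ} {q l : E}
  {N : Sc p E → Subgroup (Sc p E)}

lemma Lc.sy (h : Lc O ϖ x₀ G p q l N) : Sy (cl : Eˣ →* Sc p E) N O p q where
  pr := h.pr
  symm := h.symm
  sum := h.sum
  pw := cl_pw
  lt := h.lt
  four := by
    have hl : l ≠ 0 := by
      rintro rfl
      apply h.ne
      rw [h.hq, zero_pow h.pr.ne_zero]
    exact ⟨Units.mk0 l hl ^ p, by rw [Units.val_pow_eq_pow_val, Units.val_mk0, h.hq], cl_pw _⟩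
  one := by
    intro y hy
    obtain ⟨s, hs⟩ := h.root y hy
    exact ⟨s ^ p, by rw [Units.val_pow_eq_pow_val, hs], cl_pw s⟩
  neg := h.neg

lemma Lc.odd (h : Lc O ϖ x₀ G p q l N) (s : E) : O.valuation (ϖ : E) ≠ O.valuation s ^ p := by
  intro e
  have h1 : O.valuation s < 1 := by
    have := h.pv
    rw [e] at this
    exact (pow_lt_one_iff_of_nonneg zero_le h.pr.ne_zero).1 this
  have h2 := h.mx s h1
  have h3 : O.valuation s ^ p ≤ O.valuation (ϖ : E) ^ p := pow_le_pow_left₀ zero_le h2 p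
  rw [← e] at h3
  have h4 : O.valuation (ϖ : E) ^ p < O.valuation (ϖ : E) ^ 1 :=
    pow_lt_pow_right_of_lt_one₀ (val_pos O ϖ) h.pv h.pr.one_lt
  rw [pow_one] at h4
  exact absurd h4 (not_lt.2 h3)

lemma Lc.par (h : Lc O ϖ x₀ G p q l N) (a : Eˣ) {α : Eˣ}
    (hα : ∀ s : Eˣ, O.valuation (α : E) ≠ O.valuation (s : E) ^ p) :
    ∃ (n : ℕ) (s : Eˣ), O.valuation ((a * α ^ n : Eˣ) : E) = O.valuation (s : E) ^ p := by
  have _ : Fact p.Prime := ⟨h.pr⟩
  obtain ⟨m, hm⟩ := exists_zpow O h.arch h.pv h.mx α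
  obtain ⟨m', hm'⟩ := exists_zpow O h.arch h.pv h.mx a
  have h0 : O.valuation (ϖ : E) ≠ 0 := val_ne O ϖ
  have key : ∀ r : ℤ, O.valuation (ϖ : E) ^ ((p : ℤ) * r) = O.valuation ((ϖ ^ r : Eˣ) : E) ^ p := by
    intro r
    rw [Units.val_zpow_eq_zpow_val, map_zpow₀, ← zpow_natCast (O.valuation (ϖ : E) ^ r),
      ← zpow_mul, mul_comm]
  have hpm : ((m : ℤ) : ZMod p) ≠ 0 := by
    intro e
    obtain ⟨r, rfl⟩ := (ZMod.intCast_zmod_eq_zero_iff_dvd m p).1 e
    exact hα (ϖ ^ r) (by rw [hm, key])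
  obtain ⟨c, hc⟩ : ∃ c : ZMod p, c = -(m' : ZMod p) / (m : ZMod p) := ⟨_, rfl⟩
  have h1 : ((m' + c.val * m : ℤ) : ZMod p) = 0 := by
    push_cast
    rw [ZMod.natCast_zmod_val, hc]
    field_simp
    ring
  obtain ⟨r, hr⟩ := (ZMod.intCast_zmod_eq_zero_iff_dvd _ p).1 h1
  refine ⟨c.val, ϖ ^ r, ?_⟩
  rw [← key, ← hr, Units.val_mul, map_mul, Units.val_pow_eq_pow_val, map_pow, hm, hm',
    zpow_add₀ h0, mul_comm (c.val : ℤ) m, zpow_mul, zpow_natCast]

lemma Lc.unit_mem (h : Lc O ϖ x₀ G p q l N) {A : Type} [CommGroup A]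
    {φ : Eˣ →* A} {N' : A → Subgroup A} (hS : Sy φ N' O p q) {u : Eˣ}
    (hu : O.valuation (u : E) = 1) : φ u ∈ N' (φ G) := by
  obtain ⟨w, hw, hw1, -⟩ := hS.unit h.pf hu
  rw [← hw1]
  exact hS.f2' h.x0 h.hG hw

lemma Lc.even_mem (h : Lc O ϖ x₀ G p q l N) {A : Type} [CommGroup A]
    {φ : Eˣ →* A} {N' : A → Subgroup A} (hS : Sy φ N' O p q) {u s : Eˣ}
    (hu : O.valuation (u : E) = O.valuation (s : E) ^ p) :
    φ u ∈ N' (φ G) := by
  have h1 := h.unit_mem hS (u := u / s ^ p) (by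
    rw [Units.val_div_eq_div_val, map_div₀, Units.val_pow_eq_pow_val, map_pow, hu, div_self]
    exact pow_ne_zero _ (val_ne O s))
  rwa [map_div, hS.pw, div_one] at h1

/-- improvement -/
lemma Lc.imp (h : Lc O ϖ x₀ G p q l N) {t s : Eˣ} {α : E} (ht : (t : E) = 1 + α)
    (hα : O.valuation α < 1)
    (hα2 : O.valuation q < O.valuation α) (hs : O.valuation α = O.valuation (s : E) ^ p) :
    ∃ (t' : Eˣ) (α' : E), (t' : E) = 1 + α' ∧ O.valuation α' < O.valuation α ∧
      (cl t' : Sc p E) = cl t := by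
  have hp0 := h.pr.ne_zero
  have hs0 : (s : E) ≠ 0 := s.ne_zero
  have hsv := val_pos O s
  obtain ⟨b, hb, hb1⟩ := h.pf (α / s ^ p) (by
    rw [map_div₀, map_pow, hs, div_self]
    exact pow_ne_zero _ hsv.ne')
  have hb2 : O.valuation (b ^ p) = 1 := by
    have := Valuation.map_sub_eq_of_lt_left O.valuation (x := α / s ^ p)
      (y := α / s ^ p - b ^ p) (by
        rw [map_div₀, map_pow, hs, div_self (pow_ne_zero _ hsv.ne')]
        exact hb1)
    rw [sub_sub_cancel, map_div₀, map_pow O.valuation (s : E), hs,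
      div_self (pow_ne_zero _ hsv.ne')] at this
    exact this
  have hbv : O.valuation b = 1 := by
    rw [map_pow] at hb2
    exact (pow_eq_one_iff_of_nonneg zero_le hp0).1 hb2
  obtain ⟨r, hr⟩ : ∃ r : E, r = s * b := ⟨_, rfl⟩
  have hrv : O.valuation r = O.valuation (s : E) := by rw [hr, map_mul, hbv, mul_one]
  have h1 : O.valuation (α - r ^ p) < O.valuation α := by
    have e : α - r ^ p = s ^ p * (α / s ^ p - b ^ p) := by
      rw [hr, mul_pow, mul_sub, mul_div_cancel₀ _ (pow_ne_zero p hs0)]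
    rw [e, map_mul, map_pow, ← hs]
    exact mul_lt_of_lt_one_right ((pow_pos hsv p).trans_le hs.ge) hb1
  have h2s : O.valuation l < O.valuation (s : E) := by
    rw [hs, h.hq, map_pow] at hα2
    exact lt_of_pow_lt_pow_left₀ p zero_le hα2
  have hs1 : O.valuation (s : E) < 1 := by
    rw [hs] at hα
    exact (pow_lt_one_iff_of_nonneg zero_le hp0).1 hα
  obtain ⟨c, hc, hexp⟩ := expand_val h.pr O (z := r) (by rw [hrv]; exact hs1.le)
  have h2 : O.valuation (p * r * (1 + r * c)) < O.valuation α := by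
    obtain ⟨n, hn⟩ : ∃ n, p = n + 2 := ⟨p - 2, by have := h.pr.two_le; omega⟩
    have h3 : O.valuation (1 + r * c) ≤ 1 := by
      refine Valuation.map_add_le _ (by rw [map_one]) ?_
      rw [map_mul, hrv]
      exact mul_le_one₀ hs1.le zero_le hc
    rw [map_mul, map_mul, h.vp, hrv, hs]
    calc O.valuation l ^ (p - 1) * O.valuation (s : E) * O.valuation (1 + r * c)
        ≤ O.valuation l ^ (p - 1) * O.valuation (s : E) * 1 := by gcongr
      _ = O.valuation l ^ (p - 1) * O.valuation (s : E) := mul_one _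
      _ < O.valuation (s : E) ^ (p - 1) * O.valuation (s : E) := by
          refine mul_lt_mul_of_pos_right ?_ hsv
          refine pow_lt_pow_left₀ h2s zero_le ?_
          omega
      _ = O.valuation (s : E) ^ p := by
          rw [← pow_succ]
          congr 1
          omega
  obtain ⟨y, hy, hy1⟩ := exists_unit_one_add O (x := r) (by rw [hrv]; exact hs1)
  have hy0 : (y : E) ^ p ≠ 0 := pow_ne_zero _ y.ne_zero
  refine ⟨t / y ^ p, (α - r ^ p - p * r * (1 + r * c)) / y ^ p, ?_, ?_, ?_⟩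
  · rw [Units.val_div_eq_div_val, Units.val_pow_eq_pow_val, ht]
    rw [eq_comm, ← sub_eq_zero]
    have e : 1 + (α - r ^ p - p * r * (1 + r * c)) / (y : E) ^ p - (1 + α) / (y : E) ^ p =
        ((y : E) ^ p - (1 + r ^ p + p * r * (1 + r * c))) / (y : E) ^ p := by
      field_simp
      ring
    rw [e, ← hexp, hy, sub_self, zero_div]
  · rw [map_div₀, map_pow, hy1, one_pow, div_one]
    exact Valuation.map_sub_lt _ h1 h2
  · rw [map_div, cl_pw, div_one]

/-- descent -/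
lemma Lc.desc (h : Lc O ϖ x₀ G p q l N) {b s : Eˣ}
    (hb : O.valuation (b : E) = O.valuation (s : E) ^ p) :
    ∃ (t : Eˣ) (α : E), (t : E) = 1 + α ∧ O.valuation α < 1 ∧ (cl t : Sc p E) = cl b ∧
      (O.valuation α ≤ O.valuation q ∨
        O.valuation q < O.valuation α ∧ ∀ s : Eˣ, O.valuation α ≠ O.valuation (s : E) ^ p) := by
  obtain ⟨N, hN⟩ := h.arch _ h.pv (Units.mk0 _ h.ne)
  rw [Units.val_mk0] at hN
  have key : ∀ m n : ℕ, n + m = N → ∀ (t : Eˣ) (α : E), (t : E) = 1 + α → O.valuation α < 1 →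
      (cl t : Sc p E) = cl b → O.valuation α ≤ O.valuation (ϖ : E) ^ n →
      ∃ (t : Eˣ) (α : E), (t : E) = 1 + α ∧ O.valuation α < 1 ∧ (cl t : Sc p E) = cl b ∧
      (O.valuation α ≤ O.valuation q ∨
        O.valuation q < O.valuation α ∧
          ∀ s : Eˣ, O.valuation α ≠ O.valuation (s : E) ^ p) := by
    intro m
    induction m with
    | zero =>
      intro n hn t α ht hα htb hle
      rw [add_zero] at hn
      rw [hn] at hle
      exact ⟨t, α, ht, hα, htb, Or.inl (hle.trans hN)⟩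
    | succ m ih =>
      intro n hn t α ht hα htb hle
      by_cases h1 : O.valuation α ≤ O.valuation q
      · exact ⟨t, α, ht, hα, htb, Or.inl h1⟩
      rw [not_le] at h1
      by_cases h2 : ∃ s : Eˣ, O.valuation α = O.valuation (s : E) ^ p
      · obtain ⟨s, hs⟩ := h2
        obtain ⟨t', α', ht', hlt, htt⟩ := h.imp ht hα h1 hs
        refine ih (n + 1) (by omega) t' α' ht' (hlt.trans hα) (htt.trans htb) ?_
        have hp := pow_pos (val_pos O ϖ) n
        have h3 := h.mx (α' / (ϖ : E) ^ n) (by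
          rw [map_div₀, map_pow, div_lt_one₀ hp]
          exact hlt.trans_le hle)
        rw [map_div₀, map_pow, div_le_iff₀ hp] at h3
        rw [pow_succ, mul_comm]
        exact h3
      · push Not at h2
        exact ⟨t, α, ht, hα, htb, Or.inr ⟨h1, h2⟩⟩
  obtain ⟨w, hw, hw1, -⟩ := h.sy.unit h.pf (u := b / s ^ p) (by
    rw [Units.val_div_eq_div_val, map_div₀, Units.val_pow_eq_pow_val, map_pow, hb, div_self]
    exact pow_ne_zero _ (val_ne O s))
  refine key N 0 (zero_add N) w ((w : E) - 1) (by ring) hw ?_ ?_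
  · rw [hw1, map_div, cl_pw, div_one]
  · rw [pow_zero]
    exact hw.le

/-- the classes of the elements close to one -/
lemma Lc.gen' (h : Lc O ϖ x₀ G p q l N) {α : E} (hα : O.valuation α ≤ O.valuation q) {t : Eˣ}
    (ht : (t : E) = 1 + α) : ∃ n : ℕ, (cl t : Sc p E) = cl G ^ n := by
  refine h.gen (α / q) ?_ t (by rw [ht, mul_div_cancel₀ _ h.ne])
  rw [map_div₀]
  exact div_le_one_of_le₀ hα zero_le

/-- the classes orthogonal to all one-units -/
lemma Lc.nd1 (h : Lc O ϖ x₀ G p q l N) {t : Eˣ}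
    (hb : ∀ b : Eˣ, O.valuation ((b : E) - 1) < 1 → cl b ∈ N (cl t)) :
    ∃ n : ℕ, (cl t : Sc p E) = cl G ^ n := by
  have hS := h.sy
  have hG1 := hS.G1 (z := (x₀ : E)) h.x0.le h.hG
  obtain ⟨s, hs⟩ := h.even _ (hS.symm _ _ (hb G hG1))
  obtain ⟨t', α, ht', hα, htt, hc⟩ := h.desc hs
  rw [← htt]
  rcases hc with hc | ⟨hc1, hc2⟩
  · exact h.gen' hc ht'
  · exfalso
    have hα0 : α ≠ 0 := by
      rintro rfl
      rw [map_zero] at hc1
      exact absurd hc1 (not_lt.2 zero_le)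
    have h1 := hS.f3 (α := Units.mk0 α hα0) h.x0 h.hG (by rw [Units.val_mk0]; exact hc1)
      (t := t') (by rw [Units.val_mk0]; exact ht') (fun b hb1 => by rw [htt]; exact hb b hb1)
    obtain ⟨s', hs'⟩ := h.even _ h1
    exact hc2 s' hs'

lemma Lc.ϖ_notMem (h : Lc O ϖ x₀ G p q l N) : cl ϖ ∉ N (cl G) := by
  intro h1
  obtain ⟨s, hs⟩ := h.even _ h1
  exact h.odd s hs

lemma Lc.G_ne (h : Lc O ϖ x₀ G p q l N) : (cl G : Sc p E) ≠ 1 := by
  intro h1
  apply h.ϖ_notMem
  rw [h1]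
  exact h.sy.symm _ _ (one_mem _)

/-- powers of the class of `G` -/
lemma Lc.Gpow (h : Lc O ϖ x₀ G p q l N) {n : ℕ} :
    (cl G : Sc p E) ^ n = 1 ∨ ∃ m : ℕ, ((cl G : Sc p E) ^ n) ^ m = cl G := by
  by_cases hn : p ∣ n
  · left
    obtain ⟨m, rfl⟩ := hn
    rw [pow_mul, pw, one_pow]
  · right
    obtain ⟨m, hm⟩ := exists_inv h.pr hn
    exact ⟨m, hm _ (pw _)⟩

/-- nondegeneracy -/
lemma Lc.nd (h : Lc O ϖ x₀ G p q l N) (a : Sc p E) (ha : ∀ b, a ∈ N b) :
    a = 1 := by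
  obtain ⟨t, rfl⟩ := cl_surj a
  obtain ⟨n, hn⟩ := h.nd1 (t := t) fun b _ => h.sy.symm _ _ (ha (cl b))
  rcases h.Gpow (n := n) with h1 | ⟨m, h1⟩
  · rw [hn, h1]
  · exfalso
    apply h.ϖ_notMem
    apply h.sy.symm
    rw [← h1, ← hn]
    exact pow_mem (ha (cl ϖ)) m

lemma split_symm {F : Type} [Field F] {A : Type} [CommGroup A] {φ : Fˣ →* A}
    {N : A → Subgroup A} (hs : ∀ a b : A, b ∈ N a → a ∈ N b) {H K : Subgroup A}
    (h : EU.Split φ N H K) : EU.Split φ N K H where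
  sup := by rw [sup_comm]; exact h.sup
  inf := by rw [inf_comm]; exact h.inf
  orth := fun k hk h' hh' => hs _ _ (h.orth h' hh' k hk)
  pr := by
    intro u v huv a ha b hb a' ha' b' hb' hu hv
    exact (h.pr u v huv b hb a ha b' hb' a' ha' (by rw [hu, mul_comm])
      (by rw [hv, mul_comm])).symm

lemma Lc.indec1 (h : Lc O ϖ x₀ G p q l N) {H K : Subgroup (Sc p E)}
    (hS : EU.Split cl N H K) (hGK : cl G ∉ K) : K = ⊥ := by
  obtain ⟨π, hπH, hπK, hπ⟩ := exists_proj hS.sup hS.inf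
  have hsy : Sy (π.comp cl : Eˣ →* Sc p E) N O p q :=
    { pr := h.pr
      symm := h.sy.symm
      sum := by
        intro u v huv
        obtain ⟨hu1, k, hk, hu⟩ := hπ (cl u)
        obtain ⟨hv1, k', hk', hv⟩ := hπ (cl v)
        exact (hS.pr u v huv _ hu1 k hk _ hv1 k' hk' hu hv).1
      pw := fun c => by rw [MonoidHom.comp_apply, cl_pw, map_one]
      lt := h.lt
      four := by
        obtain ⟨f, hf, hf1⟩ := h.sy.four
        exact ⟨f, hf, by rw [MonoidHom.comp_apply, hf1, map_one]⟩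
      one := by
        intro y hy
        obtain ⟨u, hu, hu1⟩ := h.sy.one y hy
        exact ⟨u, hu, by rw [MonoidHom.comp_apply, hu1, map_one]⟩
      neg := by
        obtain ⟨w, hw, hw1⟩ := h.neg
        exact ⟨w, hw, by rw [MonoidHom.comp_apply, hw1, MonoidHom.comp_apply]⟩ }
  obtain ⟨φ, hφ⟩ : ∃ φ : Eˣ →* Sc p E, φ = π.comp cl := ⟨_, rfl⟩
  rw [← hφ] at hsy
  have hφ' : ∀ u, φ u = π (cl u) := fun u => by rw [hφ]; rfl
  -- elements of valuation not divisible by `p`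
  have hodd : ∀ α : Eˣ, (∀ s : Eˣ, O.valuation (α : E) ≠ O.valuation (s : E) ^ p) →
      φ α ∉ N (φ G) := by
    intro α hα hmem
    have hall : ∀ a : Eˣ, φ a ∈ N (φ G) := by
      intro a
      obtain ⟨n, s, hs⟩ := h.par a hα
      have h1 := h.even_mem hsy hs
      rw [map_mul, map_pow] at h1
      exact (Subgroup.mul_mem_cancel_right _ (pow_mem hmem n)).1 h1
    apply hGK
    have hG1 : φ G = 1 := by
      apply h.nd
      intro b
      apply h.sy.symm
      obtain ⟨w, rfl⟩ := cl_surj b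
      obtain ⟨hw, k, hk, e⟩ := hπ (cl w)
      rw [e]
      refine mul_mem ?_ ?_
      · rw [← hφ']
        exact hall w
      · apply hS.orth _ _ k hk
        rw [hφ']
        exact (hπ _).1
    obtain ⟨-, k, hk, e⟩ := hπ (cl G)
    rw [← hφ', hG1, one_mul] at e
    rw [e]
    exact hk
  rw [eq_bot_iff]
  intro a ha
  rw [Subgroup.mem_bot]
  obtain ⟨t, rfl⟩ := cl_surj a
  have ht1 : φ t = 1 := by rw [hφ', hπK _ ha]
  have hev : ∃ s : Eˣ, O.valuation (t : E) = O.valuation (s : E) ^ p := by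
    by_contra hc
    push Not at hc
    apply hodd t hc
    rw [ht1]
    exact one_mem _
  obtain ⟨s, hs⟩ := hev
  obtain ⟨t', α, ht', hα, htt, hc⟩ := h.desc hs
  rcases hc with hc | ⟨hc1, hc2⟩
  · obtain ⟨n, hn⟩ := h.gen' hc ht'
    rcases h.Gpow (n := n) with h1 | ⟨m, h1⟩
    · rw [← htt, hn, h1]
    · exfalso
      apply hGK
      rw [← h1, ← hn, htt]
      exact pow_mem ha m
  · exfalso
    have hα0 : α ≠ 0 := by
      rintro rfl
      rw [map_zero] at hc1
      exact absurd hc1 (not_lt.2 zero_le)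
    have ht'1 : φ t' = 1 := by rw [hφ', htt, ← hφ', ht1]
    have h1 := hsy.f3 (α := Units.mk0 α hα0) h.x0 h.hG (by rw [Units.val_mk0]; exact hc1)
      (t := t') (by rw [Units.val_mk0]; exact ht') (fun b _ => by
        rw [ht'1]
        exact hsy.symm _ _ (one_mem _))
    exact hodd _ hc2 h1

/-- the system is indecomposable -/
lemma Lc.indec (h : Lc O ϖ x₀ G p q l N) {H K : Subgroup (Sc p E)}
    (hS : EU.Split cl N H K) : H = ⊥ ∨ K = ⊥ := by
  by_cases hGK : cl G ∈ K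
  · left
    refine h.indec1 (split_symm h.sy.symm hS) fun hGH => h.G_ne ?_
    have : cl G ∈ H ⊓ K := ⟨hGH, hGK⟩
    rwa [hS.inf, Subgroup.mem_bot] at this
  · right
    exact h.indec1 hS hGK

end

end Pool.Agent.Helper58.BP
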