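import Mathlib
import Pool.Agent.Helper58.BP.Dens

set_option autoImplicit false

/-! Approximation of the elements of the field by constants. -/

namespace Pool.Agent.Helper58.BP

open Pool.Agent.Y920.EP Pool.Agent.Helper58.EB Pool.Agent.Helper58.ET

section

variable {E : Type} [Field E] {O : ValuationSubring E} {ϖ x₀ G : Eˣ} {p : ℕ}
  {N : Sc p E → Subgroup (Sc p E)}
variable {k : Type} [Field k] {i : k →+* E} {q l : k}
variable {F : Type} [Field F] {j : k →+* F} {φ : Fˣ →* Sc p E}
variable {R : ValuationSubring F}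

lemma nn_one {q l : E} (h : Lc O ϖ x₀ G p q l N) (a : Sc p E) : a ∈ N (1 : Sc p E) :=
  h.sy.symm _ _ (one_mem _)

/-- the classes of the elements `1 + q z` -/
lemma Rl.k1 (h : Lc O ϖ x₀ G p (i q) (i l) N) (hd : Dn O i) (hr : Rl i j N φ)
    (hS : Sy φ N R p (j q)) (ha : Ar R) {z : F} (hz : R.valuation z ≤ 1) {T : Fˣ}
    (hT : (T : F) = 1 + j q * z) : ∃ n : ℕ, φ T = cl G ^ n := by
  obtain ⟨t, ht⟩ := cl_surj (φ T)
  rw [← ht]
  apply h.nd1
  intro b hb
  obtain ⟨c, hc1, hc2, -⟩ := h.apx hd b 1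
  rw [Units.val_one, map_one] at hc1
  rw [← hc2, ht, ← hr.cst]
  have h1 : O.valuation (i ((c : k) - 1)) < O.valuation (i 1) := by
    have e : i ((c : k) - 1) = (i c - b) + (b - 1) := by
      rw [map_sub, map_one]
      ring
    rw [e, map_one, map_one]
    exact Valuation.map_add_lt _ hc1 hb
  rw [← hr.cmpl h hd hS ha, map_sub, map_one, map_one] at h1
  rcases hz.lt_or_eq with hz1 | hz1
  · obtain ⟨u, hu, hu1⟩ := hS.one (j q * z) (by
      rw [map_mul]
      exact mul_lt_of_lt_one_right hS.pos hz1)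
    have e : T = u := by
      ext
      rw [hT, hu]
    rw [e, hu1]
    exact nn_one h _
  · have hz0 : z ≠ 0 := by
      rintro rfl
      rw [map_zero] at hz1
      exact zero_ne_one hz1
    exact hS.f2' (z := Units.mk0 z hz0) hz1 hT h1

/-- a constant which generates the unramified extension -/
lemma Rl.gc (h : Lc O ϖ x₀ G p (i q) (i l) N) (hd : Dn O i) (hr : Rl i j N φ)
    (hS : Sy φ N R p (j q)) (ha : Ar R) : ∃ z₁ g : Fˣ, R.valuation (z₁ : F) = 1 ∧
      (g : F) = 1 + j q * z₁ ∧ φ g = cl G := by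
  obtain ⟨c, hc1, -, hc3⟩ := h.apx hd x₀ 1
  rw [Units.val_one, map_one] at hc1
  rw [h.x0] at hc3
  have hcv : R.valuation (j c) = 1 := by
    apply le_antisymm
    · rw [hr.cmp h hd hS ha]
      exact hc3.le
    · have := hr.cmp' h hd hS ha 1 c
      rw [map_one, map_one, map_one, map_one] at this
      exact this.2 hc3.ge
  have h4 : O.valuation (i (1 + q * c) - G) < O.valuation (i q) * O.valuation (G : E) := by
    have e : i (1 + q * c) - G = i q * (i c - x₀) := by
      rw [h.hG, map_add, map_mul, map_one]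
      ring
    rw [e, map_mul, h.Gv, mul_one]
    exact mul_lt_of_lt_one_right h.iq hc1
  have h5 : O.valuation (i (1 + q * c)) = 1 := by
    rw [← h.Gv]
    apply eq_of_close
    refine h4.trans ?_
    rw [h.Gv, mul_one]
    exact h.lt
  have h6 : (1 : k) + q * c ≠ 0 := by
    intro e
    rw [e, map_zero, map_zero] at h5
    exact zero_ne_one h5
  obtain ⟨g, hg⟩ : ∃ g : kˣ, (g : k) = 1 + q * c := ⟨Units.mk0 _ h6, Units.val_mk0 _⟩
  refine ⟨Units.map (j : k →* F) c, Units.map (j : k →* F) g, hcv, ?_, ?_⟩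
  · change j g = 1 + j q * j c
    rw [hg, map_add, map_mul, map_one]
  · rw [hr.cst]
    apply h.close
    change O.valuation (i g - G) < _
    rw [hg]
    exact h4

/-- the units are norms of the unramified extension -/
lemma Rl.f4 (h : Lc O ϖ x₀ G p (i q) (i l) N) (hd : Dn O i) (hr : Rl i j N φ)
    (hS : Sy φ N R p (j q)) (ha : Ar R) {y : Fˣ} (hy : R.valuation (y : F) = 1) :
    φ y ∈ N (cl G) := by
  by_contra hcon
  obtain ⟨z₁, g, hz₁, hg, hgG⟩ := hr.gc h hd hS ha
  have hex : ∀ z : F, R.valuation z ≤ 1 → ∃ T : Fˣ, (T : F) = 1 + j q * z := by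
    intro z hz
    obtain ⟨u, hu, -⟩ := exists_unit_one_add R (x := j q * z) (by
      rw [map_mul]
      exact mul_lt_one_of_nonneg_of_lt_one_left zero_le hS.lt hz)
    exact ⟨u, hu⟩
  -- orthogonality to a nontrivial element
  have hmem : ∀ (w T : Fˣ), R.valuation (w : F) = 1 → (T : F) = 1 + j q * w → φ T ≠ 1 →
      φ w ∈ N (cl G) := by
    intro w T hw hT hne
    have h1 := hS.symm _ _ (hS.f2b hw hT)
    obtain ⟨n, hn⟩ := hr.k1 h hd hS ha hw.le hT
    rcases h.Gpow (n := n) with h2 | ⟨m, h2⟩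
    · exact absurd (hn.trans h2) hne
    · apply hS.symm
      rw [← h2, ← hn]
      exact pow_mem h1 m
  -- the first case
  have ha1 : ∀ (z : F) (T T' : Fˣ), R.valuation z ≤ 1 → (T : F) = 1 + j q * z →
      (T' : F) = 1 + j q * (y * z) → φ T ≠ 1 → φ T' = 1 := by
    intro z T T' hz hT hT' hne
    have hz1 : R.valuation z = 1 := by
      refine hz.eq_of_not_lt fun hlt => hne ?_
      obtain ⟨u, hu, hu1⟩ := hS.one (j q * z) (by
        rw [map_mul]
        exact mul_lt_of_lt_one_right hS.pos hlt)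
      rw [← hu1]
      congr 1
      ext
      rw [hT, hu]
    have hz0 : z ≠ 0 := by
      rintro rfl
      rw [map_zero] at hz1
      exact zero_ne_one hz1
    obtain ⟨zu, rfl⟩ : ∃ zu : Fˣ, (zu : F) = z := ⟨Units.mk0 z hz0, Units.val_mk0 _⟩
    have h1 := hmem zu T hz1 hT hne
    by_contra hne'
    have h3 : R.valuation ((y * zu : Fˣ) : F) = 1 := by
      rw [Units.val_mul, map_mul, hy, hz1, one_mul]
    have h2 := hmem (y * zu) T' h3 (by rw [hT', Units.val_mul]) hne'
    rw [map_mul] at h2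
    exact hcon ((Subgroup.mul_mem_cancel_right _ h1).1 h2)
  -- all elements
  have hall : ∀ (z : F) (T' : Fˣ), R.valuation z ≤ 1 → (T' : F) = 1 + j q * (y * z) →
      φ T' = 1 := by
    intro z T' hz hT'
    obtain ⟨T, hT⟩ := hex z hz
    by_cases h1 : φ T = 1
    · have hyz : R.valuation ((y : F) * z) ≤ 1 := by rw [map_mul, hy, one_mul]; exact hz
      have hyz₁ : R.valuation ((y : F) * z₁) ≤ 1 := by rw [map_mul, hy, one_mul]; exact hz₁.le
      have hzz₁ : R.valuation (z + z₁) ≤ 1 := Valuation.map_add_le _ hz hz₁.le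
      obtain ⟨T₁, hT₁⟩ := hex (z + z₁) hzz₁
      obtain ⟨T₁', hT₁'⟩ := hex (y * (z + z₁)) (by rw [map_mul, hy, one_mul]; exact hzz₁)
      obtain ⟨T₂, hT₂⟩ := hex (y * z₁) hyz₁
      have h2 : φ T₁ = cl G := by
        rw [hS.add hz hz₁.le hT hg hT₁, h1, one_mul, hgG]
      have h3 := ha1 _ T₁ T₁' hzz₁ hT₁ hT₁' (by rw [h2]; exact h.G_ne)
      have h4 := ha1 z₁ g T₂ hz₁.le hg hT₂ (by rw [hgG]; exact h.G_ne)
      have h5 := hS.add hyz hyz₁ hT' hT₂ (G'' := T₁') (by rw [hT₁']; ring)
      rw [h3, h4, mul_one] at h5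
      exact h5.symm
    · exact ha1 z T T' hz hT hT' h1
  have h1 := hall (z₁ / y) g (by rw [map_div₀, hy, hz₁, div_one]) (by
    rw [hg]
    have := y.ne_zero
    field_simp)
  rw [hgG] at h1
  exact h.G_ne h1

/-- approximation, main case -/
lemma Rl.near1 (h : Lc O ϖ x₀ G p (i q) (i l) N) (hd : Dn O i) (hr : Rl i j N φ)
    (hS : Sy φ N R p (j q)) (ha : Ar R) {a : Fˣ} (ha1 : R.valuation (a : F) < 1)
    (ha2 : R.valuation (j q) < R.valuation (a : F)) (haG : φ a ∉ N (cl G)) :
    ∃ c : k, R.valuation (a - j c) < R.valuation (a : F) := by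
  by_contra hcon
  push Not at hcon
  obtain ⟨z₁, g, hz₁, hg, hgG⟩ := hr.gc h hd hS ha
  have hone : ∀ w : Fˣ, R.valuation ((w : F) - 1) < 1 → φ w ∈ N (cl G) := by
    intro w hw
    rw [← hgG]
    exact hS.f2' hz₁ hg hw
  obtain ⟨T, hT, hTv⟩ := exists_unit_one_add R ha1
  have hTG : φ T ∈ N (cl G) := by
    apply hone
    rw [hT, add_sub_cancel_left]
    exact ha1
  obtain ⟨b, hb⟩ := cl_surj (φ T)
  rw [← hb] at hTG
  obtain ⟨s, hs⟩ := h.even _ hTG
  obtain ⟨t, α, ht, hα, htb, hαc⟩ := h.desc hs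
  -- a constant
  obtain ⟨c, hc1, hc2, hc3⟩ : ∃ c : k, R.valuation (j c) < 1 ∧
      (∀ u : Fˣ, (u : F) = 1 + j c → φ u = φ T) ∧
      (R.valuation (j c) ≤ R.valuation (j q) ∨ R.valuation (j q) < R.valuation (j c) ∧
        ∀ u : Fˣ, (u : F) = j c → φ u ∉ N (cl G)) := by
    obtain ⟨c, hc⟩ := hd α (Units.mk0 _ h.ne)
    rw [Units.val_mk0] at hc
    have hcα : O.valuation (i c) < 1 := by
      have e : i c = (i c - α) + α := by ring
      rw [e]
      exact Valuation.map_add_lt _ (hc.trans h.lt) hα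
    refine ⟨c, ?_, ?_, ?_⟩
    · have := hr.cmpl h hd hS ha c 1
      rw [map_one, map_one, map_one, map_one] at this
      exact this.2 hcα
    · intro u hu
      have h1 : (1 : k) + c ≠ 0 := by
        intro e
        apply u.ne_zero
        rw [hu, ← map_one j, ← map_add, e, map_zero]
      obtain ⟨d, hd'⟩ : ∃ d : kˣ, (d : k) = 1 + c := ⟨Units.mk0 _ h1, Units.val_mk0 _⟩
      have e : u = Units.map (j : k →* F) d := by
        ext
        rw [hu]
        change _ = j d
        rw [hd', map_add, map_one]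
      rw [e, hr.cst, ← hb, ← htb]
      apply h.close
      change O.valuation (i d - t) < _
      have htv : O.valuation (t : E) = 1 := by
        rw [ht]
        exact val_one_add O hα
      rw [htv, mul_one, hd', ht, map_add, map_one, add_sub_add_left_eq_sub]
      exact hc
    · have hcmp1 := hr.cmp' h hd hS ha c q
      have hcmp2 := hr.cmpl h hd hS ha q c
      rcases hαc with h1 | ⟨h1, h2⟩
      · left
        rw [hcmp1]
        have e : i c = (i c - α) + α := by ring
        rw [e]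
        exact Valuation.map_add_le _ hc.le h1
      · right
        have h3 : O.valuation (i c) = O.valuation α := eq_of_close (hc.trans h1)
        refine ⟨hcmp2.2 (by rw [h3]; exact h1), ?_⟩
        intro u hu hmem
        have hc0 : c ≠ 0 := by
          rintro rfl
          apply u.ne_zero
          rw [hu, map_zero]
        have e : u = Units.map (j : k →* F) (Units.mk0 c hc0) := by
          ext
          rw [hu]
          rfl
        rw [e, hr.cst] at hmem
        obtain ⟨s', hs'⟩ := h.even _ hmem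
        apply h2 s'
        rw [← h3, ← hs']
        rfl
  have hac := hcon c
  -- the difference
  have hav := val_pos R a
  have hdc : j c - (a : F) ≠ 0 := by
    intro e
    have : (a : F) - j c = 0 := by linear_combination (-1) * e
    rw [this, map_zero] at hac
    exact absurd hav (not_lt.2 hac)
  obtain ⟨δ, hδ⟩ : ∃ δ : Fˣ, (δ : F) = j c - a := ⟨Units.mk0 _ hdc, Units.val_mk0 _⟩
  have hδv : R.valuation (a : F) ≤ R.valuation (δ : F) := by
    rw [hδ, Valuation.map_sub_swap]
    exact hac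
  obtain ⟨u, hu, -⟩ := exists_unit_one_add R hc1
  have hu1 := hc2 u hu
  have hT0 : (T : F) ≠ 0 := T.ne_zero
  have h1 : φ (δ / T) ∈ N (φ g) := by
    refine hS.f3 (t := u / T) hz₁ hg ?_ ?_ ?_
    · rw [Units.val_div_eq_div_val, map_div₀, hTv, div_one]
      exact ha2.trans_le hδv
    · rw [Units.val_div_eq_div_val, Units.val_div_eq_div_val, hu, hδ]
      field_simp
      rw [hT]
      ring
    · intro b _
      rw [map_div, hu1, div_self']
      exact nn_one h _
  rw [hgG, map_div] at h1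
  rw [hb] at hTG
  have h2 : φ δ ∈ N (cl G) := by
    have := mul_mem h1 hTG
    rwa [div_mul_cancel] at this
  have hneg : φ (-1) ∈ N (cl G) := hS.negm hone
  rcases lt_trichotomy (R.valuation (j c)) (R.valuation (a : F)) with h3 | h3 | h3
  · -- the constant is small
    have h4 : φ (-1 * δ / a) ∈ N (cl G) := by
      apply hone
      have e : ((-1 * δ / a : Fˣ) : F) - 1 = -(j c / a) := by
        rw [Units.val_div_eq_div_val, Units.val_mul, Units.val_neg, Units.val_one, hδ]
        field_simp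
        ring
      rw [e, Valuation.map_neg, map_div₀, div_lt_one₀ hav]
      exact h3
    rw [map_div, map_mul] at h4
    apply haG
    have h5 := div_mem (mul_mem hneg h2) h4
    rwa [div_div_cancel] at h5
  · have h4 : φ (δ / a) ∈ N (cl G) := by
      apply hr.f4 h hd hS ha
      rw [Units.val_div_eq_div_val, map_div₀]
      rw [div_eq_one_iff_eq hav.ne']
      refine le_antisymm ?_ hδv
      rw [hδ]
      exact Valuation.map_sub_le _ h3.le le_rfl
    rw [map_div] at h4
    apply haG
    have h5 := div_mem h2 h4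
    rwa [div_div_cancel] at h5
  · have hjc0 : j c ≠ 0 := by
      intro e
      rw [e, map_zero] at h3
      exact absurd h3 (not_lt.2 zero_le)
    obtain ⟨v, hv⟩ : ∃ v : Fˣ, (v : F) = j c := ⟨Units.mk0 _ hjc0, Units.val_mk0 _⟩
    rcases hc3 with h4 | ⟨-, h4⟩
    · exact absurd (ha2.trans h3) (not_lt.2 h4)
    · apply h4 v hv
      have h5 : φ (δ / v) ∈ N (cl G) := by
        apply hone
        have e : ((δ / v : Fˣ) : F) - 1 = -(a / j c) := by
          rw [Units.val_div_eq_div_val, hδ, hv]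
          field_simp
          ring
        rw [e, Valuation.map_neg, map_div₀, div_lt_one₀ (hav.trans h3)]
        exact h3
      rw [map_div] at h5
      have h6 := div_mem h2 h5
      rwa [div_div_cancel] at h6

/-- shifting into a fundamental interval -/
lemma shift (ha : Ar R) {π : Fˣ} (hp : R.valuation (π : F) < 1) (α : Fˣ) :
    ∃ n : ℤ, R.valuation (π : F) ≤ R.valuation ((α * π ^ n : Fˣ) : F) ∧
      R.valuation ((α * π ^ n : Fˣ) : F) < 1 := by
  classical
  obtain ⟨N, hN⟩ := ha _ hp α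
  obtain ⟨β, hβ⟩ : ∃ β : Fˣ, β = α * π ^ (-(N : ℤ)) := ⟨_, rfl⟩
  have hp0 := val_pos R π
  have hβv : 1 ≤ R.valuation (β : F) := by
    rw [hβ, Units.val_mul, map_mul, Units.val_zpow_eq_zpow_val, map_zpow₀, zpow_neg,
      zpow_natCast, ← div_eq_mul_inv, one_le_div₀ (pow_pos hp0 N)]
    exact hN
  have hex : ∃ m : ℕ, R.valuation (β : F) * R.valuation (π : F) ^ m < 1 := by
    obtain ⟨m, hm⟩ := ha.lt hp β⁻¹
    refine ⟨m, ?_⟩
    have := hm m le_rfl
    rw [Units.val_inv_eq_inv_val, map_inv₀] at this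
    calc R.valuation (β : F) * R.valuation (π : F) ^ m
        < R.valuation (β : F) * (R.valuation (β : F))⁻¹ :=
          mul_lt_mul_of_pos_left this (val_pos R β)
      _ = 1 := mul_inv_cancel₀ (val_ne R β)
  obtain ⟨m, hm, hmin⟩ : ∃ m : ℕ, R.valuation (β : F) * R.valuation (π : F) ^ m < 1 ∧
      ∀ l < m, ¬ R.valuation (β : F) * R.valuation (π : F) ^ l < 1 :=
    ⟨Nat.find hex, Nat.find_spec hex, fun m hm => Nat.find_min hex hm⟩
  have hm0 : m ≠ 0 := by
    rintro rfl
    rw [pow_zero, mul_one] at hm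
    exact absurd hβv (not_le.2 hm)
  obtain ⟨l, rfl⟩ := Nat.exists_eq_succ_of_ne_zero hm0
  have hl := hmin l (Nat.lt_succ_self l)
  rw [not_lt] at hl
  have e : R.valuation ((α * π ^ ((l.succ : ℤ) - N) : Fˣ) : F) =
      R.valuation (β : F) * R.valuation (π : F) ^ l.succ := by
    rw [hβ, sub_eq_neg_add, zpow_add, ← mul_assoc, Units.val_mul, map_mul, zpow_natCast,
      Units.val_pow_eq_pow_val, map_pow]
  refine ⟨(l.succ : ℤ) - N, ?_, ?_⟩
  · rw [e, Nat.succ_eq_add_one, pow_succ, ← mul_assoc]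
    exact le_mul_of_one_le_left zero_le hl
  · rw [e]
    exact hm

end

end Pool.Agent.Helper58.BP
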