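import Mathlib
import Pool.Agent.Helper58.BP.Near

set_option autoImplicit false

/-! The embedding into the local field. -/

namespace Pool.Agent.Helper58.BP

open Pool.Agent.Y920.EP Pool.Agent.Helper58.EB Pool.Agent.Helper58.ET

section

variable {E : Type} [Field E] {O : ValuationSubring E} {ϖ x₀ G : Eˣ} {p : ℕ}
  {N : Sc p E → Subgroup (Sc p E)}
variable {k : Type} [Field k] {i : k →+* E} {q l : k}
variable {F : Type} [Field F] {j : k →+* F} {φ : Fˣ →* Sc p E}
variable {R : ValuationSubring F}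

/-- approximation, classes which are not norms -/
lemma Rl.near2 (h : Lc O ϖ x₀ G p (i q) (i l) N) (hd : Dn O i) (hr : Rl i j N φ)
    (hS : Sy φ N R p (j q)) (ha : Ar R) {π : kˣ} (hπ : O.valuation (i π) = O.valuation (ϖ : E))
    {α : Fˣ} (hαG : φ α ∉ N (cl G)) : ∃ c : k, R.valuation (α - j c) < R.valuation (α : F) := by
  obtain ⟨π', hπ'⟩ : ∃ π' : Fˣ, π' = Units.map (j : k →* F) π := ⟨_, rfl⟩
  have hπv : (π' : F) = j π := by rw [hπ']; rfl
  have hp0 := h.pr.ne_zero
  have hql : q = l ^ p := by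
    apply i.injective
    rw [h.hq, map_pow]
  have hπ1 : R.valuation (π' : F) < 1 := by
    have := hr.cmpl h hd hS ha π 1
    rw [map_one, map_one, map_one, map_one, ← hπv, hπ] at this
    exact this.2 h.pv
  have hπ2 : R.valuation (j q) ≤ R.valuation (π' : F) ^ p := by
    have h1 := hr.cmp' h hd hS ha l π
    rw [← hπv, hπ] at h1
    rw [hql, map_pow, map_pow]
    refine pow_le_pow_left₀ zero_le (h1.2 (h.mx _ ?_)) p
    have h2 := h.lt
    rw [h.hq, map_pow] at h2
    exact (pow_lt_one_iff_of_nonneg zero_le hp0).1 h2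
  have hp1 : R.valuation ((π' ^ p : Fˣ) : F) < 1 := by
    rw [Units.val_pow_eq_pow_val, map_pow]
    exact pow_lt_one₀ zero_le hπ1 hp0
  obtain ⟨n, hn1, hn2⟩ := shift ha hp1 α
  obtain ⟨a, ha'⟩ : ∃ a : Fˣ, a = α * (π' ^ p) ^ n := ⟨_, rfl⟩
  rw [← ha'] at hn1 hn2
  have hφ : φ a = φ α := by rw [ha', map_mul, map_zpow, hS.pw, one_zpow, mul_one]
  rw [← hφ] at hαG
  rcases hn1.lt_or_eq with h1 | h1
  · obtain ⟨c, hc⟩ := hr.near1 h hd hS ha (a := a) hn2 (by
      refine lt_of_le_of_lt ?_ h1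
      rw [Units.val_pow_eq_pow_val, map_pow]
      exact hπ2) hαG
    refine ⟨c / ((π : k) ^ p) ^ n, ?_⟩
    have hπ0 : (π' : F) ≠ 0 := π'.ne_zero
    have hpn : ((π' : F) ^ p) ^ n ≠ 0 := zpow_ne_zero _ (pow_ne_zero _ hπ0)
    obtain ⟨D, hD⟩ : ∃ D : F, D = ((π' : F) ^ p) ^ n := ⟨_, rfl⟩
    rw [← hD] at hpn
    have e1 : (a : F) = α * D := by
      rw [ha', Units.val_mul, Units.val_zpow_eq_zpow_val, Units.val_pow_eq_pow_val, hD]
    have e : (α : F) - j (c / ((π : k) ^ p) ^ n) = (a - j c) / D := by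
      rw [map_div₀, map_zpow₀, map_pow, ← hπv, e1, ← hD]
      field_simp
    have e2 : R.valuation (α : F) = R.valuation (a : F) / R.valuation D := by
      rw [e1, map_mul, mul_div_cancel_right₀]
      rw [Valuation.ne_zero_iff]
      exact hpn
    rw [e, e2, map_div₀]
    exact div_lt_div_of_pos_right hc (zero_lt_iff.2 ((Valuation.ne_zero_iff _).2 hpn))
  · exfalso
    apply hαG
    have h2 := hr.f4 h hd hS ha (y := a / π' ^ p) (by
      rw [Units.val_div_eq_div_val, map_div₀, ← h1, div_self (val_ne R _)])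
    rwa [map_div, hS.pw, div_one] at h2

/-- approximation -/
lemma Rl.near (h : Lc O ϖ x₀ G p (i q) (i l) N) (hd : Dn O i) (hr : Rl i j N φ)
    (hS : Sy φ N R p (j q)) (ha : Ar R) (α : Fˣ) :
    ∃ c : k, R.valuation (α - j c) < R.valuation (α : F) := by
  obtain ⟨π, -, hπ1, hπ2⟩ := h.apx hd ϖ 1
  by_cases hα : φ α ∈ N (cl G)
  · obtain ⟨c, hc⟩ := hr.near2 h hd hS ha hπ2 (α := α * Units.map (j : k →* F) π) (by
      rw [map_mul, hr.cst, hπ1]
      intro h1
      exact h.ϖ_notMem ((Subgroup.mul_mem_cancel_left _ hα).1 h1))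
    refine ⟨c / π, ?_⟩
    have hπ0 : (π : k) ≠ 0 := π.ne_zero
    have hjπ : j π ≠ 0 := by rwa [Ne, map_eq_zero]
    have e0 : ((α * Units.map (j : k →* F) π : Fˣ) : F) = α * j π := rfl
    have e : (α : F) - j (c / π) = (α * j π - j c) / j π := by
      rw [map_div₀]
      field_simp
    have e2 : R.valuation (α : F) = R.valuation ((α : F) * j π) / R.valuation (j π) := by
      rw [map_mul, mul_div_cancel_right₀]
      rwa [Valuation.ne_zero_iff]
    rw [e0] at hc
    rw [e, e2, map_div₀]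
    exact div_lt_div_of_pos_right hc (zero_lt_iff.2 ((Valuation.ne_zero_iff _).2 hjπ))
  · exact hr.near2 h hd hS ha hπ2 hα

/-- density -/
lemma Rl.dense (h : Lc O ϖ x₀ G p (i q) (i l) N) (hd : Dn O i) (hr : Rl i j N φ)
    (hS : Sy φ N R p (j q)) (ha : Ar R) (α : F) (d : Fˣ) :
    ∃ c : k, R.valuation (α - j c) < R.valuation (d : F) := by
  by_cases hα0 : α = 0
  · refine ⟨0, ?_⟩
    rw [hα0, map_zero, sub_zero, map_zero]
    exact val_pos R d
  obtain ⟨π, -, hπ1, hπ2⟩ := h.apx hd ϖ 1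
  have hπ3 : R.valuation (j π) < 1 := by
    have := hr.cmpl h hd hS ha π 1
    rw [map_one, map_one, map_one, map_one, hπ2] at this
    exact this.2 h.pv
  have key : ∀ n : ℕ, ∃ c : k, R.valuation (α - j c) ≤ R.valuation (j π) ^ n * R.valuation α := by
    intro n
    induction n with
    | zero => exact ⟨0, by rw [map_zero, sub_zero, pow_zero, one_mul]⟩
    | succ n ih =>
      obtain ⟨c, hc⟩ := ih
      by_cases h1 : α - j c = 0
      · exact ⟨c, by rw [h1, map_zero]; exact zero_le⟩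
      obtain ⟨c', hc'⟩ := hr.near h hd hS ha (Units.mk0 _ h1)
      rw [Units.val_mk0] at hc'
      by_cases h2 : α - j c - j c' = 0
      · refine ⟨c + c', ?_⟩
        rw [map_add, ← sub_sub, h2, map_zero]
        exact zero_le
      obtain ⟨c'', hc''⟩ := hr.near h hd hS ha (Units.mk0 _ h2)
      rw [Units.val_mk0] at hc''
      refine ⟨c + c', ?_⟩
      have e1 : R.valuation (j c') = R.valuation (α - j c) := by
        rw [Valuation.map_sub_swap] at hc'
        exact eq_of_close hc'
      have e2 : R.valuation (j c'') = R.valuation (α - j c - j c') := by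
        rw [Valuation.map_sub_swap] at hc''
        exact eq_of_close hc''
      rw [← e2, ← e1, hr.cmpl h hd hS ha] at hc'
      have hc0 : 0 < O.valuation (i c') := lt_of_le_of_lt zero_le hc'
      have h3 := h.mx (i (c'' / c')) (by
        rw [map_div₀, map_div₀, div_lt_one₀ hc0]
        exact hc')
      rw [← hπ2, map_div₀, map_div₀, div_le_iff₀ hc0, ← map_mul, ← map_mul,
        ← hr.cmp' h hd hS ha, map_mul, map_mul, e1, e2] at h3
      rw [map_add, ← sub_sub, pow_succ, mul_assoc]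
      refine h3.trans ?_
      rw [mul_comm (R.valuation (j π) ^ n), mul_assoc, mul_comm (R.valuation α)]
      exact mul_le_mul_right hc _
  obtain ⟨n, hn⟩ := ha.lt hπ3 (d / Units.mk0 α hα0)
  obtain ⟨c, hc⟩ := key n
  refine ⟨c, hc.trans_lt ?_⟩
  have h1 := hn n le_rfl
  have h0 : 0 < R.valuation α := zero_lt_iff.2 ((Valuation.ne_zero_iff _).2 hα0)
  rwa [Units.val_div_eq_div_val, Units.val_mk0, map_div₀, lt_div_iff₀ h0] at h1

/-- completeness -/
def Cp (O : ValuationSubring E) (a : E) : Prop := ∀ x : ℕ → E,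
  (∀ n, O.valuation (x (n + 1) - x n) ≤ O.valuation a ^ n) →
    ∃ y : E, ∀ n, O.valuation (y - x n) ≤ O.valuation a ^ n

/-- simultaneous approximation by constants -/
def Lm (O : ValuationSubring E) (R : ValuationSubring F) (i : k →+* E) (j : k →+* F) (q : k)
    (α : F) (e : E) : Prop :=
  ∀ n : ℕ, ∃ c : k, R.valuation (α - j c) ≤ R.valuation (j q) ^ n ∧
    O.valuation (e - i c) ≤ O.valuation (i q) ^ n

/-- products of approximations -/
lemma mul_aux {F : Type} [Field F] {R : ValuationSubring F} {a α β c d : F} {n M : ℕ}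
    (h2 : R.valuation a ≤ 1)
    (hα : R.valuation a ^ M * R.valuation α ≤ 1)
    (hβ : R.valuation a ^ M * R.valuation β ≤ 1)
    (hc : R.valuation (α - c) ≤ R.valuation a ^ (n + M))
    (hd : R.valuation (β - d) ≤ R.valuation a ^ (n + M)) :
    R.valuation (α * β - c * d) ≤ R.valuation a ^ n := by
  have h1 : R.valuation a ^ M * R.valuation d ≤ 1 := by
    have e : d = β - (β - d) := by ring
    rw [← map_pow, ← map_mul, e, mul_sub]
    refine Valuation.map_sub_le _ ?_ ?_
    · rw [map_mul, map_pow]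
      exact hβ
    · rw [map_mul, map_pow]
      exact mul_le_one₀ (pow_le_one₀ zero_le h2) zero_le
        (hd.trans (pow_le_one₀ zero_le h2))
  have e : α * β - c * d = α * (β - d) + d * (α - c) := by ring
  rw [e]
  refine Valuation.map_add_le _ ?_ ?_
  · rw [map_mul]
    calc R.valuation α * R.valuation (β - d) ≤ R.valuation α * R.valuation a ^ (n + M) :=
          mul_le_mul_right hd _
      _ = (R.valuation a ^ M * R.valuation α) * R.valuation a ^ n := by
          rw [pow_add]
          ac_rfl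
      _ ≤ 1 * R.valuation a ^ n := mul_le_mul_left hα _
      _ = _ := one_mul _
  · rw [map_mul]
    calc R.valuation d * R.valuation (α - c) ≤ R.valuation d * R.valuation a ^ (n + M) :=
          mul_le_mul_right hc _
      _ = (R.valuation a ^ M * R.valuation d) * R.valuation a ^ n := by
          rw [pow_add]
          ac_rfl
      _ ≤ 1 * R.valuation a ^ n := mul_le_mul_left h1 _
      _ = _ := one_mul _

lemma bnd {F : Type} [Field F] {R : ValuationSubring F} (ha : Ar R) {a : F}
    (h2 : R.valuation a < 1) (α : F) :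
    ∃ M : ℕ, ∀ m, M ≤ m → R.valuation a ^ m * R.valuation α ≤ 1 := by
  by_cases h0 : α = 0
  · exact ⟨0, fun m _ => by rw [h0, map_zero, mul_zero]; exact zero_le⟩
  obtain ⟨M, hM⟩ := ha.lt h2 (Units.mk0 α h0)⁻¹
  refine ⟨M, fun m hm => ?_⟩
  have h1 := hM m hm
  rw [Units.val_inv_eq_inv_val, Units.val_mk0, map_inv₀] at h1
  have h3 : R.valuation α ≠ 0 := (Valuation.ne_zero_iff _).2 h0
  calc R.valuation a ^ m * R.valuation α ≤ (R.valuation α)⁻¹ * R.valuation α :=
        mul_le_mul_left h1.le _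
    _ = 1 := inv_mul_cancel₀ h3

lemma eq_zero_of {F : Type} [Field F] {R : ValuationSubring F} (ha : Ar R) {a : F}
    (h2 : R.valuation a < 1) {x : F} (hx : ∀ n : ℕ, R.valuation x ≤ R.valuation a ^ n) :
    x = 0 := by
  by_contra h0
  obtain ⟨M, hM⟩ := ha.lt h2 (Units.mk0 x h0)
  exact absurd (hx M) (not_le.2 (hM M le_rfl))

/-- the embedding -/
theorem exists_emb (hE : Ar O) (hE2 : O.valuation (i q) < 1) (hF : Ar R)
    (hF2 : R.valuation (j q) < 1)
    (hcmp : ∀ a b : k, R.valuation (j a) ≤ R.valuation (j b) ↔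
      O.valuation (i a) ≤ O.valuation (i b))
    (hden : ∀ (α : F) (n : ℕ), ∃ c : k, R.valuation (α - j c) ≤ R.valuation (j q) ^ n)
    (hcp : Cp O (i q)) : ∃ l : F →+* E, ∀ α, Lm O R i j q α (l α) := by
  have hcmp2 : ∀ (a : k) (n : ℕ), R.valuation (j a) ≤ R.valuation (j q) ^ n ↔
      O.valuation (i a) ≤ O.valuation (i q) ^ n := by
    intro a n
    have := hcmp a (q ^ n)
    simpa only [map_pow] using this
  let L : Subring (F × E) :=
    { carrier := {x | Lm O R i j q x.1 x.2}
      mul_mem' := by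
        rintro ⟨α, e⟩ ⟨β, f⟩ h1 h2 n
        obtain ⟨M₁, hM₁⟩ := bnd hF hF2 α
        obtain ⟨M₂, hM₂⟩ := bnd hF hF2 β
        obtain ⟨M₃, hM₃⟩ := bnd hE hE2 e
        obtain ⟨M₄, hM₄⟩ := bnd hE hE2 f
        obtain ⟨M, hM⟩ : ∃ M, M = M₁ + M₂ + M₃ + M₄ := ⟨_, rfl⟩
        obtain ⟨c, hc1, hc2⟩ := h1 (n + M)
        obtain ⟨d, hd1, hd2⟩ := h2 (n + M)
        refine ⟨c * d, ?_, ?_⟩
        · rw [map_mul]
          exact mul_aux hF2.le (hM₁ M (by omega)) (hM₂ M (by omega)) hc1 hd1
        · rw [map_mul]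
          exact mul_aux hE2.le (hM₃ M (by omega)) (hM₄ M (by omega)) hc2 hd2
      one_mem' := fun n => ⟨1, by simp, by simp⟩
      add_mem' := by
        rintro ⟨α, e⟩ ⟨β, f⟩ h1 h2 n
        obtain ⟨c, hc1, hc2⟩ := h1 n
        obtain ⟨d, hd1, hd2⟩ := h2 n
        refine ⟨c + d, ?_, ?_⟩
        · rw [map_add]
          change R.valuation (α + β - (j c + j d)) ≤ _
          rw [add_sub_add_comm]
          exact Valuation.map_add_le _ hc1 hd1
        · rw [map_add]
          change O.valuation (e + f - (i c + i d)) ≤ _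
          rw [add_sub_add_comm]
          exact Valuation.map_add_le _ hc2 hd2
      zero_mem' := fun n => ⟨0, by simp, by simp⟩
      neg_mem' := by
        rintro ⟨α, e⟩ h1 n
        obtain ⟨c, hc1, hc2⟩ := h1 n
        refine ⟨-c, ?_, ?_⟩
        · rw [map_neg]
          change R.valuation (-α - -j c) ≤ _
          rw [neg_sub_neg, Valuation.map_sub_swap]
          exact hc1
        · rw [map_neg]
          change O.valuation (-e - -i c) ≤ _
          rw [neg_sub_neg, Valuation.map_sub_swap]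
          exact hc2 }
  obtain ⟨f, hf⟩ : ∃ f : L →+* F, ∀ q, f q = q.1.1 := ⟨(RingHom.fst F E).comp L.subtype, fun q => rfl⟩
  have hinj : Function.Injective f := by
    rw [injective_iff_map_eq_zero]
    rintro ⟨⟨α, e⟩, h1⟩ h0
    rw [hf] at h0
    have h0' : α = 0 := h0
    subst h0'
    have : e = 0 := by
      apply eq_zero_of hE hE2
      intro n
      obtain ⟨c, hc1, hc2⟩ := h1 n
      change R.valuation (0 - j c) ≤ _ at hc1
      change O.valuation (e - i c) ≤ _ at hc2
      rw [zero_sub, Valuation.map_neg, hcmp2] at hc1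
      have e1 : e = (e - i c) + i c := by ring
      rw [e1]
      exact Valuation.map_add_le _ hc2 hc1
    subst this
    rfl
  have hsurj : Function.Surjective f := by
    intro α
    choose c hc using hden α
    obtain ⟨y, hy⟩ := hcp (fun n => i (c n)) (by
      intro n
      rw [← map_sub, ← hcmp2, map_sub]
      have e : j (c (n + 1)) - j (c n) = (α - j (c n)) - (α - j (c (n + 1))) := by ring
      rw [e]
      refine Valuation.map_sub_le _ (hc n) ((hc (n + 1)).trans ?_)
      exact pow_le_pow_right_of_le_one' hF2.le (Nat.le_succ n))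
    exact ⟨⟨(α, y), fun n => ⟨c n, hc n, hy n⟩⟩, hf _⟩
  obtain ⟨g, hg⟩ : ∃ g : F →+* L, ∀ α, f (g α) = α :=
    ⟨(RingEquiv.ofBijective f ⟨hinj, hsurj⟩).symm, fun α =>
      (RingEquiv.ofBijective f ⟨hinj, hsurj⟩).apply_symm_apply α⟩
  refine ⟨(RingHom.snd F E).comp (L.subtype.comp g), fun α => ?_⟩
  have h1 : Lm O R i j q (g α).1.1 (g α).1.2 := (g α).2
  rw [← hf, hg] at h1
  exact h1

/-- the embedding of the field and the classes -/
theorem Rl.emb (h : Lc O ϖ x₀ G p (i q) (i l) N) (hd : Dn O i) (hr : Rl i j N φ)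
    (hS : Sy φ N R p (j q)) (ha : Ar R) (hcp : Cp O (i q)) :
    ∃ l : F →+* E, (∀ c, l (j c) = i c) ∧
      ∀ u : Fˣ, φ u = cl (Units.map (l : F →* E) u) := by
  obtain ⟨l, hl⟩ := exists_emb (q := q) h.arch h.lt ha hS.lt (fun a b => hr.cmp' h hd hS ha a b)
    (fun α n => by
      obtain ⟨c, hc⟩ := hr.dense h hd hS ha α ((Units.mk0 _ hS.ne) ^ n)
      refine ⟨c, ?_⟩
      rw [Units.val_pow_eq_pow_val, Units.val_mk0, map_pow] at hc
      exact hc.le) hcp
  refine ⟨l, fun c => ?_, fun u => ?_⟩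
  · rw [← sub_eq_zero]
    apply eq_zero_of h.arch h.lt
    intro n
    obtain ⟨d, hd1, hd2⟩ := hl (j c) n
    have h1 := hr.cmp' h hd hS ha (c - d) (q ^ n)
    simp only [map_pow, map_sub] at h1
    rw [h1] at hd1
    have e : l (j c) - i c = (l (j c) - i d) - (i c - i d) := by ring
    rw [e]
    exact Valuation.map_sub_le _ hd2 hd1
  · obtain ⟨n₁, hn₁⟩ := ha.lt hS.lt (Units.mk0 _ hS.ne * u)
    obtain ⟨n₂, hn₂⟩ := Ar.lt (R := O) h.arch h.lt
      (Units.mk0 _ h.ne * Units.map (l : F →* E) u)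
    obtain ⟨c, hc1, hc2⟩ := hl u (n₁ + n₂)
    have h1 := hn₁ (n₁ + n₂) (by omega)
    have h2 := hn₂ (n₁ + n₂) (by omega)
    rw [Units.val_mul, Units.val_mk0, map_mul] at h1 h2
    have h3 := hc1.trans_lt h1
    have h4 := hc2.trans_lt h2
    have h5 : R.valuation (j c) = R.valuation (u : F) := by
      rw [Valuation.map_sub_swap] at h3
      exact eq_of_close (h3.trans (mul_lt_of_lt_one_left (val_pos R u) hS.lt))
    have hc0 : c ≠ 0 := by
      rintro rfl
      rw [map_zero, map_zero] at h5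
      exact val_ne R u h5.symm
    obtain ⟨c', hc'⟩ : ∃ c' : kˣ, (c' : k) = c := ⟨Units.mk0 c hc0, Units.val_mk0 _⟩
    rw [← hc'] at h3 h4
    have h6 : φ u = φ (Units.map (j : k →* F) c') := by
      have hu0 : (u : F) ≠ 0 := u.ne_zero
      obtain ⟨w, hw, hw1⟩ := hS.one ((j c' - u) / u) (by
        rw [map_div₀, div_lt_iff₀ (val_pos R u), Valuation.map_sub_swap]
        exact h3)
      have e : Units.map (j : k →* F) c' = u * w := by
        ext
        rw [Units.val_mul, hw]
        change j c' = _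
        field_simp
        ring
      rw [e, map_mul, hw1, mul_one]
    rw [h6, hr.cst]
    apply h.close
    rw [Valuation.map_sub_swap] at h4
    exact h4

end

end Pool.Agent.Helper58.BP
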