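import Mathlib
import Pool.Agent.Helper58.BP.Emb
import Pool.Agent.Helper58.BS.Nf

set_option autoImplicit false

/-! Locally compact nonarchimedean fields of residue characteristic `p`. -/

namespace Pool.Agent.Helper58.BP

open Pool.Agent.Y920.EP Pool.Agent.Helper58.EB Pool.Agent.Helper58.ET
open Pool.Agent.Helper58.BS (Ob mem_Ob Ob_le Ob_lt Ob_le1 Ob_lt1 exists_ϖ)
open scoped Topology

section

variable {E : Type} [NontriviallyNormedField E] [IsUltrametricDist E] {p : ℕ}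

lemma Ob_ar : Ar (Ob E) := by
  intro x hx y
  rw [Ob_lt1] at hx
  obtain ⟨n, hn⟩ := exists_pow_lt_of_lt_one (norm_pos_iff.2 y.ne_zero) hx
  refine ⟨n, ?_⟩
  rw [← map_pow, Ob_le, norm_pow]
  exact hn.le

lemma root_open [CompleteSpace E] (hp : p.Prime) (hp0 : (p : E) ≠ 0) : ∃ d : Eˣ, ∀ v : E,
    (Ob E).valuation v ≤ (Ob E).valuation (d : E) → ∃ u : Eˣ, (u : E) = 1 + v ∧
      (cl u : Sc p E) = 1 := by
  have h1 := (hasStrictDerivAt_pow p (1 : E)).map_nhds_eq (by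
    rw [one_pow, mul_one]
    exact hp0)
  have h2 : (fun x : E => x ^ p) '' {x : E | x ≠ 0} ∈ 𝓝 ((1 : E) ^ p) := by
    rw [← h1]
    exact Filter.image_mem_map (isOpen_ne.mem_nhds one_ne_zero)
  rw [one_pow, Metric.mem_nhds_iff] at h2
  obtain ⟨ε, hε, hball⟩ := h2
  obtain ⟨y, hy0, hy1⟩ := NormedField.exists_norm_lt E hε
  have hy : y ≠ 0 := norm_pos_iff.1 hy0
  refine ⟨Units.mk0 y hy, fun v hv => ?_⟩
  rw [Ob_le, Units.val_mk0] at hv
  obtain ⟨s, hs0, hs⟩ := hball (show 1 + v ∈ Metric.ball (1 : E) ε by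
    rw [mem_ball_iff_norm, add_sub_cancel_left]
    exact hv.trans_lt hy1)
  refine ⟨Units.mk0 s hs0 ^ p, ?_, cl_pw _⟩
  rw [Units.val_pow_eq_pow_val, Units.val_mk0]
  exact hs

lemma Ob_cp [ProperSpace E] {a : E} (h21 : ‖a‖ < 1) : Cp (Ob E) a := by
  intro x hx
  have hx' : ∀ n, ‖x (n + 1) - x n‖ ≤ ‖a‖ ^ n := by
    intro n
    have := hx n
    rwa [← map_pow, Ob_le, norm_pow] at this
  have hcau : CauchySeq x := by
    apply cauchySeq_of_le_geometric ‖a‖ 1 h21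
    intro n
    rw [dist_comm, dist_eq_norm, one_mul]
    exact hx' n
  obtain ⟨y, hy⟩ := cauchySeq_tendsto_of_complete hcau
  refine ⟨y, fun n => ?_⟩
  rw [← map_pow, Ob_le, norm_pow]
  have h1 : ∀ m, ‖x (n + m) - x n‖ ≤ ‖a‖ ^ n := by
    intro m
    induction m with
    | zero =>
      rw [add_zero, sub_self, norm_zero]
      positivity
    | succ m ih =>
      have e : x (n + (m + 1)) - x n = (x (n + m + 1) - x (n + m)) + (x (n + m) - x n) := by
        rw [← add_assoc]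
        ring
      rw [e]
      refine (IsUltrametricDist.norm_add_le_max _ _).trans (max_le ((hx' (n + m)).trans ?_) ih)
      exact pow_le_pow_of_le_one (norm_nonneg _) h21.le (by omega)
  have h2 : Filter.Tendsto (fun m => ‖x (n + m) - x n‖) Filter.atTop (𝓝 ‖y - x n‖) := by
    have h3 : Filter.Tendsto (fun m => x (n + m)) Filter.atTop (𝓝 y) := by
      have := hy.comp (Filter.tendsto_add_atTop_nat n)
      refine this.congr fun m => ?_
      simp only [Function.comp_apply, add_comm]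
    exact (h3.sub_const _).norm
  exact le_of_tendsto' h2 h1

lemma Ob_dn {k : Type} [Field k] {i : k →+* E} (hi : DenseRange i) : Dn (Ob E) i := by
  intro e d
  obtain ⟨c, hc⟩ := hi.exists_dist_lt e (norm_pos_iff.2 d.ne_zero)
  refine ⟨c, ?_⟩
  rw [Ob_lt, ← dist_eq_norm, dist_comm]
  exact hc

/-- an element `1 + l ^ p x₀` which is not a power -/
theorem exists_G [ProperSpace E] (hp : p.Prime) {ζ : Eˣ} (hζ : IsPrimitiveRoot ζ p)
    (hpO : (Ob E).valuation (p : E) < 1) (hroot : ∀ y : E, (Ob E).valuation y <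
      (Ob E).valuation (1 - (ζ : E)) ^ p → ∃ u : Eˣ, (u : E) = 1 + y ∧ (cl u : Sc p E) = 1) :
    ∃ x₀ G : Eˣ, (Ob E).valuation (x₀ : E) = 1 ∧ (G : E) = 1 + (1 - (ζ : E)) ^ p * x₀ ∧
      (cl G : Sc p E) ≠ 1 ∧ ∀ z : E, (Ob E).valuation z ≤ 1 → ∀ t : Eˣ,
        (t : E) = 1 + (1 - (ζ : E)) ^ p * z → ∃ n : ℕ, (cl t : Sc p E) = cl G ^ n := by
  have _ : Fact p.Prime := ⟨hp⟩
  have _ := charP_res (Ob E) hp hpO
  have hl0 := lam_ne hp hζ
  have hlt := val_lam' hp hζ (Ob E) hpO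
  have hlp : (1 - (ζ : E)) ^ p ≠ 0 := pow_ne_zero _ hl0
  have hlv : 0 < (Ob E).valuation (1 - (ζ : E)) := zero_lt_iff.2 ((Valuation.ne_zero_iff _).2 hl0)
  have hlpv : 0 < (Ob E).valuation (1 - (ζ : E)) ^ p := pow_pos hlv p
  obtain ⟨ε, hε⟩ : ∃ ε : E, ε = p / (1 - (ζ : E)) ^ (p - 1) := ⟨_, rfl⟩
  have hε1 : (Ob E).valuation ε = 1 := by
    rw [hε, map_div₀, map_pow, ← val_p hp hζ (Ob E), div_self]
    rw [val_p hp hζ (Ob E), ← map_pow, Valuation.ne_zero_iff]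
    exact pow_ne_zero _ hl0
  have hεO : ε ∈ Ob E := val_one_mem (Ob E) hε1
  -- `ε` is congruent to minus one
  have hεm : (Ob E).valuation (1 + ε) < 1 := by
    obtain ⟨r, hr, h5⟩ := lam_pow hp hζ (Ob E) (y := -1) (by rw [Valuation.map_neg, map_one])
    rw [← hε] at h5
    have e1 : (1 + (1 - (ζ : E)) * -1) ^ p = 1 := by
      have : 1 + (1 - (ζ : E)) * -1 = ζ := by ring
      rw [this, ← Units.val_pow_eq_pow_val, hζ.pow_eq_one, Units.val_one]
    rw [e1] at h5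
    have h6 : (1 - (ζ : E)) ^ p * ((-1) ^ p + ε * -1 * (1 + (1 - (ζ : E)) * -1 * r)) = 0 := by
      linear_combination (-1) * h5
    have h7 := (mul_eq_zero.1 h6).resolve_left hlp
    have e2 : 1 + ε = (1 + (-1) ^ p) + (1 - (ζ : E)) * (ε * r) := by
      linear_combination (-1) * h7
    rw [e2]
    refine Valuation.map_add_lt _ ?_ ?_
    · rcases hp.eq_two_or_odd' with h2 | hodd
      · have e3 : (1 : E) + (-1) ^ p = (p : E) := by
          rw [h2]
          norm_num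
        rw [e3]
        exact hpO
      · rw [hodd.neg_one_pow]
        simp
    · rw [map_mul, map_mul, hε1, one_mul]
      exact mul_lt_one_of_nonneg_of_lt_one_left zero_le hlt hr
  -- the Artin-Schreier map is not surjective
  obtain ⟨γ, hγ⟩ : ∃ γ : IsLocalRing.ResidueField (Ob E), ∀ y : IsLocalRing.ResidueField (Ob E),
      y ^ p + IsLocalRing.residue (Ob E) ⟨ε, hεO⟩ * y ≠ γ := by
    by_contra hcon
    push Not at hcon
    have hinj := (Finite.injective_iff_surjective (f := fun y : IsLocalRing.ResidueField (Ob E) =>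
      y ^ p + IsLocalRing.residue (Ob E) ⟨ε, hεO⟩ * y)).2 hcon
    have h3 : (0 : IsLocalRing.ResidueField (Ob E)) = 1 := by
      apply hinj
      dsimp only
      rw [zero_pow hp.ne_zero, mul_zero, add_zero, one_pow, mul_one, eq_comm]
      have h4 := (residue_eq_zero_iff (Ob E) (1 + ⟨ε, hεO⟩)).2 hεm
      rw [map_add, map_one] at h4
      exact h4
    exact zero_ne_one h3
  obtain ⟨x, hxO, hx⟩ := lift_res (Ob E) γ
  have hxv : (Ob E).valuation x = 1 := by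
    refine valuation_eq_one_of (Ob E) ⟨x, hxO⟩ ?_
    rw [hx]
    intro e
    apply hγ 0
    rw [e, zero_pow hp.ne_zero, mul_zero, add_zero]
  have hx0 : x ≠ 0 := by
    rintro rfl
    rw [map_zero] at hxv
    exact zero_ne_one hxv
  obtain ⟨G, hG, hG1⟩ := exists_unit_one_add (Ob E) (x := (1 - (ζ : E)) ^ p * x) (by
    rw [map_mul, map_pow, hxv, mul_one]
    exact pow_lt_one₀ zero_le hlt hp.ne_zero)
  have hGn : (cl G : Sc p E) ≠ 1 := by
    intro hc
    obtain ⟨s, hs⟩ := cl_one.1 hc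
    have hs' : (s : E) ^ p = 1 + (1 - (ζ : E)) ^ p * x := by
      rw [← hG, hs, Units.val_pow_eq_pow_val]
    rcases le_or_gt ((Ob E).valuation ((s : E) - 1)) ((Ob E).valuation (1 - (ζ : E))) with h1 | h1
    · obtain ⟨y, hy⟩ : ∃ y : E, (s : E) = 1 + (1 - (ζ : E)) * y :=
        ⟨((s : E) - 1) / (1 - (ζ : E)), by rw [mul_div_cancel₀ _ hl0]; ring⟩
      have hyv : (Ob E).valuation y ≤ 1 := by
        rw [hy, add_sub_cancel_left, map_mul] at h1
        exact (mul_le_iff_le_one_right hlv).1 h1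
      obtain ⟨r, hr, h5⟩ := lam_pow hp hζ (Ob E) hyv
      rw [← hε, ← hy, hs'] at h5
      have h6 : x = y ^ p + ε * y * (1 + (1 - (ζ : E)) * y * r) := by
        have h7 := add_left_cancel h5
        exact mul_left_cancel₀ hlp h7
      have hyO := ((Ob E).valuation_le_one_iff _).1 hyv
      have hlO := ((Ob E).valuation_le_one_iff _).1 hlt.le
      have hrO := ((Ob E).valuation_le_one_iff _).1 hr
      apply hγ (IsLocalRing.residue (Ob E) ⟨y, hyO⟩)
      rw [← hx, eq_comm, ← sub_eq_zero, ← map_pow, ← map_mul, ← map_add, ← map_sub,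
        residue_eq_zero_iff]
      change (Ob E).valuation (x - (y ^ p + ε * y)) < 1
      have e : x - (y ^ p + ε * y) = (1 - (ζ : E)) * (ε * y * (y * r)) := by
        rw [h6]
        ring
      rw [e, map_mul]
      refine mul_lt_one_of_nonneg_of_lt_one_left zero_le hlt ?_
      rw [map_mul, map_mul, map_mul, hε1, one_mul]
      exact mul_le_one₀ hyv zero_le (mul_le_one₀ hyv zero_le hr)
    · obtain ⟨μ, hμ, e⟩ := exists_sub_pow hp hζ (Ob E) (x := (s : E)) (y := 1) (by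
        rw [map_one, mul_one]
        exact h1)
      have h2 := congrArg (Ob E).valuation e
      rw [one_pow, hs', add_sub_cancel_left, map_mul, map_pow, hxv, mul_one, map_mul, map_pow,
        val_one_add (Ob E) hμ, mul_one] at h2
      have h3 := pow_lt_pow_left₀ h1 zero_le hp.ne_zero
      rw [h2] at h3
      exact lt_irrefl _ h3
  obtain ⟨g, hg, hgen⟩ := exists_gen hp hζ (Ob E) hpO
  have hgen' : ∀ u : Eˣ, (Ob E).valuation ((u : E) - 1) ≤ (Ob E).valuation (1 - (ζ : E)) ^ p →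
      ∃ n : ℕ, (cl u : Sc p E) = cl g ^ n := by
    intro u hu
    obtain ⟨n, f, y, hy, e⟩ := hgen u hu
    obtain ⟨w, hw, hw1⟩ := hroot y hy
    refine ⟨n, ?_⟩
    have e' : u = g ^ n * f ^ p * w := by
      ext
      rw [e, Units.val_mul, Units.val_mul, Units.val_pow_eq_pow_val, Units.val_pow_eq_pow_val, hw]
    rw [e', map_mul, map_mul, hw1, cl_pw, mul_one, mul_one, map_pow]
  have hz1 : ∀ z : E, (Ob E).valuation z ≤ 1 → (Ob E).valuation ((1 - (ζ : E)) ^ p * z) ≤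
      (Ob E).valuation (1 - (ζ : E)) ^ p := by
    intro z hz
    rw [map_mul, map_pow]
    exact mul_le_of_le_one_right zero_le hz
  obtain ⟨n, hn⟩ := hgen' G (by
    rw [hG, add_sub_cancel_left]
    exact hz1 x hxv.le)
  have hpn : ¬ p ∣ n := by
    rintro ⟨m, rfl⟩
    apply hGn
    rw [hn, pow_mul, pw, one_pow]
  obtain ⟨m, hm⟩ := exists_inv hp hpn
  refine ⟨Units.mk0 x hx0, G, hxv, hG, hGn, fun z hz t ht => ?_⟩
  obtain ⟨n', hn'⟩ := hgen' t (by
    rw [ht, add_sub_cancel_left]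
    exact hz1 z hz)
  refine ⟨m * n', ?_⟩
  rw [pow_mul, hn, hm _ (pw _), hn']

/-- local fields have the properties of `Lc` -/
theorem exists_lc [ProperSpace E] (hp : p.Prime) {ζ : Eˣ} (hζ : IsPrimitiveRoot ζ p)
    (hpE : ‖(p : E)‖ < 1) {q l : E} (hl : l = 1 - (ζ : E)) (hq : q = l ^ p)
    {N : Sc p E → Subgroup (Sc p E)} (hsymm : ∀ a b : Sc p E, b ∈ N a → a ∈ N b)
    (hsum : ∀ u v : Eˣ, (u : E) + v = 1 → cl v ∈ N (cl u))
    (heven : ∀ (G : Eˣ) (z : E), (Ob E).valuation z ≤ 1 → (G : E) = 1 + l ^ p * z →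
      (cl G : Sc p E) ≠ 1 → ∀ v : Eˣ, cl v ∈ N (cl G) →
      ∃ s : Eˣ, (Ob E).valuation (v : E) = (Ob E).valuation (s : E) ^ p) :
    ∃ ϖ x₀ G : Eˣ, Lc (Ob E) ϖ x₀ G p q l N := by
  obtain ⟨ϖ, hϖ1, hϖ2⟩ := exists_ϖ (E := E)
  have _ : CompleteSpace E := inferInstance
  have hpO : (Ob E).valuation (p : E) < 1 := Ob_lt1.2 hpE
  have hl0 := lam_ne hp hζ
  have hlt := val_lam' hp hζ (Ob E) hpO
  have hp0 : (p : E) ≠ 0 := by
    rw [← Valuation.ne_zero_iff (Ob E).valuation, val_p hp hζ (Ob E), ← map_pow,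
      Valuation.ne_zero_iff]
    exact pow_ne_zero _ hl0
  obtain ⟨d, hd⟩ := root_open (E := E) hp hp0
  have hroot : ∀ y : E, (Ob E).valuation y < (Ob E).valuation (1 - (ζ : E)) ^ p →
      ∃ u : Eˣ, (u : E) = 1 + y ∧ (cl u : Sc p E) = 1 :=
    fun y hy => one_of_open hp hζ (Ob E) hpO (fun c => cl_pw c) hd Ob_ar hy
  obtain ⟨x₀, G, hx₀, hG, hGn, hgen⟩ := exists_G hp hζ hpO hroot
  have hql : q ≠ 0 := by
    rw [hq, hl]
    exact pow_ne_zero _ hl0
  refine ⟨ϖ, x₀, G, ⟨hp, hq, hql, ?_, hsymm, hsum, ?_, ?_, Ob_lt1.2 hϖ1, ?_, Ob_ar, ?_, ?_, hx₀,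
    ?_, ?_, ?_⟩⟩
  · rw [hq, hl, map_pow]
    exact pow_lt_one₀ zero_le hlt hp.ne_zero
  · exact exists_neg hp hζ (Ob E) hlt cl fun c => cl_pw c
  · rw [hl]
    exact val_p hp hζ (Ob E)
  · intro x hx
    rw [Ob_le]
    exact hϖ2 x (Ob_lt1.1 hx)
  · intro a ha
    exact pf_of_finite (Ob E) hp hpO ha
  · intro y hy
    rw [hq, hl, map_pow] at hy
    obtain ⟨u, hu, hu1⟩ := hroot y hy
    obtain ⟨s, hs⟩ := cl_one.1 hu1
    exact ⟨s, by rw [← hu, hs, Units.val_pow_eq_pow_val]⟩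
  · rw [hG, hq, hl]
  · intro z hz t ht
    exact hgen z hz t (by rw [ht, hq, hl])
  · exact heven G x₀ hx₀.le (by rw [hG, hl]) hGn

theorem finite_sc [ProperSpace E] {ϖ x₀ G : Eˣ} {q l : E} {N : Sc p E → Subgroup (Sc p E)}
    (h : Lc (Ob E) ϖ x₀ G p q l N) : Finite (Sc p E) := by
  have hϖ1 : ‖(ϖ : E)‖ < 1 := Ob_lt1.1 h.pv
  have hϖ0 : 0 < ‖(ϖ : E)‖ := norm_pos_iff.2 ϖ.ne_zero
  have h20 : 0 < ‖q‖ := norm_pos_iff.2 h.ne
  have hc : IsCompact (Metric.closedBall (0 : E) 1 ∩ {x : E | ‖(ϖ : E)‖ ^ p ≤ ‖x‖}) :=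
    (isCompact_closedBall (0 : E) 1).inter_right (isClosed_le continuous_const continuous_norm)
  obtain ⟨t, ht, hcov⟩ := hc.elim_nhds_subcover
    (fun x => Metric.ball x (‖q‖ * ‖x‖)) (fun x hx => Metric.ball_mem_nhds x (by
      have h1 : 0 < ‖x‖ := (pow_pos hϖ0 p).trans_le hx.2
      positivity))
  have ht0 : ∀ x ∈ t, x ≠ 0 := by
    rintro x hx rfl
    have h1 := (ht 0 hx).2
    rw [Set.mem_setOf_eq, norm_zero] at h1
    exact absurd (pow_pos hϖ0 p) (not_lt.2 h1)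
  refine Finite.of_surjective (fun x : t => cl (Units.mk0 x.1 (ht0 x.1 x.2))) ?_
  intro a
  obtain ⟨u, rfl⟩ := cl_surj a
  -- a representative of norm between one and `‖ϖ‖ ^ p`
  obtain ⟨w, hw, hw1, hw2⟩ : ∃ w : Eˣ, (cl w : Sc p E) = cl u ∧ ‖(w : E)‖ ≤ 1 ∧
      ‖(ϖ : E)‖ ^ p ≤ ‖(w : E)‖ := by
    obtain ⟨n, hn1, hn2⟩ := shift (R := Ob E) Ob_ar (π := ϖ ^ p) (by
      rw [Units.val_pow_eq_pow_val, map_pow]
      exact pow_lt_one₀ zero_le h.pv h.pr.ne_zero) u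
    refine ⟨u * (ϖ ^ p) ^ n, by rw [map_mul, map_zpow, cl_pw, one_zpow, mul_one], ?_, ?_⟩
    · exact Ob_le1.1 hn2.le
    · rw [Ob_le, Units.val_pow_eq_pow_val, norm_pow] at hn1
      exact hn1
  obtain ⟨x, hx, hxw⟩ := Set.mem_iUnion₂.1
    (hcov (show (w : E) ∈ _ from ⟨mem_closedBall_zero_iff.2 hw1, hw2⟩))
  refine ⟨⟨x, hx⟩, ?_⟩
  rw [← hw, eq_comm]
  apply h.close
  rw [← map_mul, Ob_lt, norm_mul, Units.val_mk0, ← dist_eq_norm]
  exact hxw

end

end Pool.Agent.Helper58.BP
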