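import Mathlib
import Pool.Agent.Helper58.BP.Top

set_option autoImplicit false

/-! The theorem for homomorphisms to the classes. -/

namespace Pool.Agent.Helper58.BP

open Pool.Agent.Helper58.BS (Ob Ob_lt1)

theorem base {E : Type} [NontriviallyNormedField E] [IsUltrametricDist E]
    [LocallyCompactSpace E] {p : ℕ} (hp : p.Prime) (hpE : ‖(p : E)‖ < 1) {k : Type} [Field k]
    (i : k →+* E) (hi : DenseRange i) {ζ : kˣ} (hζ : IsPrimitiveRoot ζ p)
    {K : Type} [Field K] (j : k →+* K)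
    {N : Sc p E → Subgroup (Sc p E)} (hsymm : ∀ a b : Sc p E, b ∈ N a → a ∈ N b)
    (hsum : ∀ u v : Eˣ, (u : E) + v = 1 → cl v ∈ N (cl u))
    (heven : ∀ (G : Eˣ) (z : E), (Ob E).valuation z ≤ 1 → (G : E) = 1 + (1 - i ζ) ^ p * z →
      (cl G : Sc p E) ≠ 1 → ∀ v : Eˣ, cl v ∈ N (cl G) →
      ∃ s : Eˣ, (Ob E).valuation (v : E) = (Ob E).valuation (s : E) ^ p)
    (φ : Kˣ →* Sc p E) (hr : Rl i j N φ) : ∃! P : KPlace j i, P.Gives φ := by
  have _ : ProperSpace E := ProperSpace.of_locallyCompactSpace E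
  obtain ⟨ξ, hξ'⟩ : ∃ ξ : Eˣ, ξ = Units.map (i : k →* E) ζ := ⟨_, rfl⟩
  have hξ : IsPrimitiveRoot ξ p := by
    rw [hξ']
    exact hζ.map_of_injective (Units.map_injective i.injective)
  have hξv : (ξ : E) = i ζ := by rw [hξ']; rfl
  obtain ⟨ϖ, x₀, G, h⟩ := exists_lc hp hξ hpE (q := i ((1 - (ζ : k)) ^ p)) (l := i (1 - (ζ : k)))
    (by rw [map_sub, map_one, hξv]) (by rw [map_pow]) hsymm hsum (by
      intro G z hz hG
      exact heven G z hz (by rw [hG, map_sub, map_one]))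
  have _ := finite_sc h
  have hd := Ob_dn hi
  obtain ⟨P, hP⟩ := exists_place h hd (Ob_cp (Ob_lt1.1 h.lt)) hζ rfl rfl hr
  exact ⟨P, hP, fun Q hQ => KPlace.uniq h hd hQ hP⟩

end Pool.Agent.Helper58.BP
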