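import Mathlib

set_option autoImplicit false

/-! Powers of a root of unity with exponents modulo `p`, characters and Kummer theory. -/

namespace Pool.Agent.Helper58.BP

/-- the power of `ξ` with an exponent modulo `p` -/
def ex {M : Type} [Monoid M] {p : ℕ} (ξ : M) (c : ZMod p) : M := ξ ^ c.val

section

variable {p : ℕ} [Fact p.Prime] {F : Type} [Field F] {ξ : F}

lemma ex_zero : ex ξ (0 : ZMod p) = 1 := by
  unfold ex
  rw [ZMod.val_zero, pow_zero]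

lemma ex_add (h : IsPrimitiveRoot ξ p) (a b : ZMod p) : ex ξ (a + b) = ex ξ a * ex ξ b := by
  unfold ex
  rw [ZMod.val_add, ← pow_eq_pow_mod _ h.pow_eq_one, pow_add]

lemma ex_nat (h : IsPrimitiveRoot ξ p) (n : ℕ) : ex ξ (n : ZMod p) = ξ ^ n := by
  unfold ex
  rw [ZMod.val_natCast, ← pow_eq_pow_mod _ h.pow_eq_one]

lemma ex_ne (h : IsPrimitiveRoot ξ p) (a : ZMod p) : ex ξ a ≠ 0 := by
  unfold ex
  exact pow_ne_zero _ (h.ne_zero (Fact.out : p.Prime).ne_zero)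

lemma ex_pow (h : IsPrimitiveRoot ξ p) (a : ZMod p) : ex ξ a ^ p = 1 := by
  unfold ex
  rw [← pow_mul, mul_comm, pow_mul, h.pow_eq_one, one_pow]

lemma ex_inj (h : IsPrimitiveRoot ξ p) {a b : ZMod p} (hab : ex ξ a = ex ξ b) : a = b :=
  ZMod.val_injective p (h.pow_inj (ZMod.val_lt a) (ZMod.val_lt b) hab)

lemma ex_eq_one (h : IsPrimitiveRoot ξ p) {a : ZMod p} (ha : ex ξ a = 1) : a = 0 :=
  ex_inj h (ha.trans ex_zero.symm)

lemma exists_ex (h : IsPrimitiveRoot ξ p) {x : F} (hx : x ^ p = 1) : ∃ c : ZMod p, x = ex ξ c := by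
  obtain ⟨n, -, rfl⟩ := h.eq_pow_of_pow_eq_one hx
  exact ⟨n, (ex_nat h n).symm⟩

lemma ex_map {F' : Type} [Field F'] (f : F →+* F') (c : ZMod p) : f (ex ξ c) = ex (f ξ) c := by
  unfold ex
  rw [map_pow]

lemma ex_sum (h : IsPrimitiveRoot ξ p) {ι : Type} (s : Finset ι) (c : ι → ZMod p) :
    ex ξ (∑ x ∈ s, c x) = ∏ x ∈ s, ex ξ (c x) := by
  classical
  induction s using Finset.induction_on with
  | empty => rw [Finset.sum_empty, Finset.prod_empty, ex_zero]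
  | insert a s ha ih => rw [Finset.sum_insert ha, Finset.prod_insert ha, ex_add h, ih]

lemma exists_ex_mul (h : IsPrimitiveRoot ξ p) {x y : F} (hy : y ≠ 0) (hxy : x ^ p = y ^ p) :
    ∃ c : ZMod p, x = ex ξ c * y := by
  obtain ⟨c, hc⟩ := exists_ex h (x := x / y) (by
    rw [div_pow, hxy, div_self (pow_ne_zero _ hy)])
  exact ⟨c, by rw [← hc, div_mul_cancel₀ _ hy]⟩

lemma ex_mul_inj (h : IsPrimitiveRoot ξ p) {y : F} (hy : y ≠ 0) {a b : ZMod p}
    (hab : ex ξ a * y = ex ξ b * y) : a = b :=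
  ex_inj h (mul_right_cancel₀ hy hab)

end

section

variable {p : ℕ} [Fact p.Prime] {E Ω : Type} [Field E] [Field Ω] [Algebra E Ω] {ζ : E}

lemma ex_fix (σ : Ω ≃ₐ[E] Ω) (c : ZMod p) :
    σ (ex (algebraMap E Ω ζ) c) = ex (algebraMap E Ω ζ) c := by
  rw [← ex_map (algebraMap E Ω), AlgEquiv.commutes]

/-- functions which are invariant under an open subgroup -/
lemma lc_of {G : Type} [Group G] [TopologicalSpace G] [IsTopologicalGroup G] {Y : Type}
    {γ : G → Y} {S : Subgroup G} (hS : IsOpen (S : Set G))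
    (h : ∀ σ, ∀ υ ∈ S, γ (σ * υ) = γ σ) : IsLocallyConstant γ := by
  rw [IsLocallyConstant.iff_exists_open]
  intro σ
  refine ⟨(fun τ => σ⁻¹ * τ) ⁻¹' (S : Set G), hS.preimage (continuous_const_mul _), ?_, ?_⟩
  · rw [Set.mem_preimage, inv_mul_cancel]
    exact S.one_mem
  · intro τ hτ
    have := h σ _ hτ
    rwa [mul_inv_cancel_left] at this

/-- characters are given by roots -/
lemma kummer [IsGalois E Ω] (hζ : IsPrimitiveRoot (algebraMap E Ω ζ) p)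
    {M : Subgroup (Ω ≃ₐ[E] Ω)}
    (hM : IsClosed (M : Set (Ω ≃ₐ[E] Ω))) {γ : (Ω ≃ₐ[E] Ω) → ZMod p} (hγ : IsLocallyConstant γ)
    (hadd : ∀ σ ∈ M, ∀ τ ∈ M, γ (σ * τ) = γ σ + γ τ) :
    ∃ y : Ω, y ≠ 0 ∧ ∀ σ ∈ M, σ y = ex (algebraMap E Ω ζ) (γ σ) * y := by
  classical
  have hγ1 : γ 1 = 0 := by
    have := hadd 1 M.one_mem 1 M.one_mem
    rw [mul_one] at this
    exact left_eq_add.1 this
  by_cases htriv : ∀ σ ∈ M, γ σ = 0
  · refine ⟨1, one_ne_zero, fun σ hσ => ?_⟩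
    rw [htriv σ hσ, ex_zero, map_one, mul_one]
  push Not at htriv
  obtain ⟨σ₀, hσ₀, hσ₀γ⟩ := htriv
  have hpow : ∀ n : ℕ, σ₀ ^ n ∈ M ∧ γ (σ₀ ^ n) = n * γ σ₀ := by
    intro n
    induction n with
    | zero => exact ⟨by rw [pow_zero]; exact M.one_mem, by rw [pow_zero, hγ1]; simp⟩
    | succ n ih =>
      refine ⟨by rw [pow_succ]; exact mul_mem ih.1 hσ₀, ?_⟩
      rw [pow_succ, hadd _ ih.1 _ hσ₀, ih.2]
      push_cast
      ring
  have hex : ∀ c : ZMod p, ∃ υ ∈ M, γ υ = c := by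
    intro c
    refine ⟨σ₀ ^ (c / γ σ₀).val, (hpow _).1, ?_⟩
    rw [(hpow _).2, ZMod.natCast_zmod_val, div_mul_cancel₀ _ hσ₀γ]
  choose υ hυM hυ using hex
  have hinv : ∀ σ ∈ M, γ σ⁻¹ = - γ σ := by
    intro σ hσ
    have := hadd σ hσ σ⁻¹ (inv_mem hσ)
    rw [mul_inv_cancel, hγ1] at this
    exact (neg_eq_of_add_eq_zero_right this.symm).symm
  let H : Subgroup (Ω ≃ₐ[E] Ω) :=
    { carrier := {σ | σ ∈ M ∧ γ σ = 0}
      mul_mem' := by
        rintro σ τ ⟨hσ, hσ'⟩ ⟨hτ, hτ'⟩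
        exact ⟨mul_mem hσ hτ, by rw [hadd σ hσ τ hτ, hσ', hτ', add_zero]⟩
      one_mem' := ⟨M.one_mem, hγ1⟩
      inv_mem' := by
        rintro σ ⟨hσ, hσ'⟩
        exact ⟨inv_mem hσ, by rw [hinv σ hσ, hσ', neg_zero]⟩ }
  have hH : ∀ σ, σ ∈ H ↔ σ ∈ M ∧ γ σ = 0 := fun σ => Iff.rfl
  have hHc : IsClosed (H : Set (Ω ≃ₐ[E] Ω)) := hM.inter (hγ.isClosed_fiber 0)
  have hfix : (IntermediateField.fixedField H).fixingSubgroup = H :=
    InfiniteGalois.fixingSubgroup_fixedField (k := E) (K := Ω) ⟨H, hHc⟩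
  obtain ⟨L, hL⟩ : ∃ L : IntermediateField E Ω, L = IntermediateField.fixedField H := ⟨_, rfl⟩
  rw [← hL] at hfix
  -- the action on `L` is determined by the character
  have hact : ∀ σ ∈ M, ∀ τ ∈ M, γ σ = γ τ → ∀ x ∈ L, σ x = τ x := by
    intro σ hσ τ hτ hστ x hx
    have h1 : τ⁻¹ * σ ∈ L.fixingSubgroup := by
      rw [hfix, hH]
      refine ⟨mul_mem (inv_mem hτ) hσ, ?_⟩
      rw [hadd _ (inv_mem hτ) _ hσ, hinv τ hτ, hστ, neg_add_cancel]
    rw [IntermediateField.mem_fixingSubgroup_iff] at h1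
    have h2 := congrArg τ (h1 x hx)
    rwa [← AlgEquiv.mul_apply, mul_inv_cancel_left] at h2
  let f : ZMod p → (L →* Ω) := fun c =>
    ((υ c : Ω →* Ω)).comp (L.val : L →* Ω)
  have hf : ∀ c (x : L), f c x = υ c x := fun c x => rfl
  have hfinj : Function.Injective f := by
    intro c d hcd
    have h1 : (υ d)⁻¹ * υ c ∈ H := by
      rw [← hfix, IntermediateField.mem_fixingSubgroup_iff]
      intro x hx
      have h2 := DFunLike.congr_fun hcd ⟨x, hx⟩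
      rw [hf, hf] at h2
      rw [AlgEquiv.mul_apply, h2, ← AlgEquiv.mul_apply, inv_mul_cancel, AlgEquiv.one_apply]
    have h3 := ((hH _).1 h1).2
    rw [hadd _ (inv_mem (hυM d)) _ (hυM c), hinv _ (hυM d), hυ, hυ, neg_add_eq_zero] at h3
    exact h3.symm
  have hli := (linearIndependent_monoidHom L Ω).comp f hfinj
  rw [Fintype.linearIndependent_iff] at hli
  obtain ⟨x, hx⟩ : ∃ x : L, ∑ c : ZMod p, ex (algebraMap E Ω ζ) (-c) * υ c x ≠ 0 := by
    by_contra hcon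
    push Not at hcon
    have h1 := hli (fun c => ex (algebraMap E Ω ζ) (-c)) (by
      ext x
      rw [Finset.sum_apply]
      exact hcon x) 0
    exact ex_ne hζ _ h1
  refine ⟨_, hx, fun σ hσ => ?_⟩
  rw [map_sum, Finset.mul_sum]
  refine Fintype.sum_equiv (Equiv.addRight (γ σ)) _ _ fun c => ?_
  rw [Equiv.coe_addRight, map_mul, ex_fix, ← mul_assoc, ← ex_add hζ]
  have e : γ σ + -(c + γ σ) = -c := by ring
  rw [e, ← AlgEquiv.mul_apply]
  congr 1
  refine hact _ (mul_mem hσ (hυM c)) _ (hυM _) ?_ x x.2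
  rw [hadd σ hσ _ (hυM c), hυ, hυ, add_comm]

end

end Pool.Agent.Helper58.BP
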