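import Mathlib
import Pool.Agent.Helper58.BP.Ex

set_option autoImplicit false

/-! The relation of degree two. -/

namespace Pool.Agent.Helper58.BP

section

variable {p : ℕ} [Fact p.Prime] {K L : Type} [Field K] [Field L] [Algebra K L] {ζ : K}

lemma prod_ex (hξ : IsPrimitiveRoot (algebraMap K L ζ) p) (r : L) :
    ∏ c : ZMod p, (1 - ex (algebraMap K L ζ) c * r) = 1 - r ^ p := by
  classical
  have hp : p.Prime := Fact.out
  have h1 := hξ.pow_sub_pow_eq_prod_sub_mul 1 r hp.pos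
  rw [one_pow] at h1
  rw [h1]
  refine Finset.prod_bij (fun c _ => ex (algebraMap K L ζ) c) ?_ ?_ ?_ ?_
  · intro c _
    rw [Polynomial.mem_nthRootsFinset hp.pos]
    exact ex_pow hξ c
  · intro a _ b _ hab
    exact ex_inj hξ hab
  · intro η hη
    rw [Polynomial.mem_nthRootsFinset hp.pos] at hη
    obtain ⟨c, hc⟩ := exists_ex hξ hη
    exact ⟨c, Finset.mem_univ _, hc.symm⟩
  · intro c _
    rfl

/-- the cup product of the characters of `f` and `1 - f` is zero -/
theorem stb {G : Type} [Group G] [TopologicalSpace G] [IsTopologicalGroup G]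
    {ρ : G →* (L ≃ₐ[K] L)} (hρ : Continuous ρ) (hξ : IsPrimitiveRoot (algebraMap K L ζ) p)
    {f g : K} (hf : f ≠ 0) (hg : g ≠ 0) (hfg : f + g = 1)
    (hL : ∀ r : L, (∃ f : K, r ^ p = algebraMap K L f) → ∃ w : L, w ^ p = 1 - r)
    {r V : L} (hr : r ^ p = algebraMap K L f) (hV : V ^ p = algebraMap K L g) {a b : G → ZMod p}
    (ha : ∀ σ, ρ σ r = ex (algebraMap K L ζ) (a σ) * r)
    (hb : ∀ σ, ρ σ V = ex (algebraMap K L ζ) (b σ) * V) :
    ∃ γ : G → ZMod p, IsLocallyConstant γ ∧ ∀ σ τ, γ (σ * τ) = γ σ + γ τ + a σ * b τ := by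
  classical
  have hp : p.Prime := Fact.out
  have hroot : ∀ {x : L} {c : K}, c ≠ 0 → x ^ p = algebraMap K L c → x ≠ 0 := by
    rintro x c hc hx rfl
    rw [zero_pow hp.ne_zero, eq_comm, map_eq_zero] at hx
    exact hc hx
  have hr0 := hroot hf hr
  have hV0 := hroot hg hV
  -- the roots
  have hW' : ∀ c : ZMod p, ∃ w : L, w ^ p = 1 - ex (algebraMap K L ζ) c * r := by
    intro c
    apply hL
    exact ⟨f, by rw [mul_pow, ex_pow hξ, one_mul, hr]⟩
  choose W hW using hW'
  have hprod : (∏ c : ZMod p, W c) ^ p = V ^ p := by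
    rw [← Finset.prod_pow, Finset.prod_congr rfl (fun c _ => hW c), prod_ex hξ, hr, hV,
      ← map_one (algebraMap K L), ← map_sub]
    congr 1
    linear_combination (-1) * hfg
  obtain ⟨m, hm⟩ := exists_ex_mul hξ hV0 hprod
  have hWV0 : ∏ c : ZMod p, W c ≠ 0 := by
    rw [hm]
    exact mul_ne_zero (ex_ne hξ _) hV0
  have hW0 : ∀ c, W c ≠ 0 := fun c => Finset.prod_ne_zero_iff.1 hWV0 c (Finset.mem_univ c)
  have hbW : ∀ σ, ρ σ (∏ c : ZMod p, W c) = ex (algebraMap K L ζ) (b σ) * ∏ c : ZMod p, W c := by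
    intro σ
    rw [hm, map_mul, ex_fix, hb]
    ring
  have ha2 : ∀ σ τ, a (σ * τ) = a σ + a τ := by
    intro σ τ
    apply ex_mul_inj hξ hr0
    rw [← ha, map_mul, AlgEquiv.mul_apply, ha τ, map_mul, ex_fix, ha σ, ex_add hξ]
    ring
  have ha1 : a 1 = 0 := by
    have := ha2 1 1
    rw [mul_one] at this
    exact left_eq_add.1 this
  have hd' : ∀ (σ : G) (c : ZMod p), ∃ d : ZMod p,
      ρ σ (W (c - a σ)) = ex (algebraMap K L ζ) d * W c := by
    intro σ c
    apply exists_ex_mul hξ (hW0 c)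
    rw [← map_pow, hW, hW, map_sub, map_one, map_mul, ex_fix, ha, ← mul_assoc, ← ex_add hξ,
      sub_add_cancel]
  choose d hd using hd'
  have hdd : ∀ σ τ c, d (σ * τ) c = d σ c + d τ (c - a σ) := by
    intro σ τ c
    apply ex_mul_inj hξ (hW0 c)
    rw [← hd, ha2, ← sub_sub, map_mul, AlgEquiv.mul_apply, hd τ, map_mul, ex_fix, hd σ,
      ex_add hξ]
    ring
  have hsum : ∀ σ, ∑ c : ZMod p, d σ c = b σ := by
    intro σ
    apply ex_mul_inj hξ hWV0
    rw [← hbW, ex_sum hξ, ← Finset.prod_mul_distrib, map_prod]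
    rw [← Equiv.prod_comp (Equiv.subRight (a σ)) (fun c => ρ σ (W c))]
    exact Finset.prod_congr rfl fun c _ => (hd σ c).symm
  -- the open subgroup
  have hint : ∀ c, IsIntegral K (W c) := by
    intro c
    have h1 : IsIntegral K r := by
      have : IsIntegral K (r ^ p) := by rw [hr]; exact isIntegral_algebraMap
      exact IsIntegral.of_pow hp.pos this
    have h2 : IsIntegral K (W c ^ p) := by
      rw [hW, ← ex_map (algebraMap K L)]
      exact isIntegral_one.sub (isIntegral_algebraMap.mul h1)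
    exact IsIntegral.of_pow hp.pos h2
  obtain ⟨M, hM⟩ : ∃ M, M = IntermediateField.adjoin K (Set.range W) := ⟨_, rfl⟩
  have hfin : FiniteDimensional K M := by
    rw [hM]
    apply IntermediateField.finiteDimensional_adjoin
    rintro x ⟨c, rfl⟩
    exact hint c
  have hSo : IsOpen ((M.fixingSubgroup.comap ρ : Subgroup G) : Set G) :=
    (M.fixingSubgroup_isOpen).preimage hρ
  have hSW : ∀ υ ∈ M.fixingSubgroup.comap ρ, ∀ c, ρ υ (W c) = W c := by
    intro υ hυ c
    rw [Subgroup.mem_comap, IntermediateField.mem_fixingSubgroup_iff] at hυ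
    apply hυ
    rw [hM]
    exact IntermediateField.subset_adjoin K _ ⟨c, rfl⟩
  have hSa : ∀ υ ∈ M.fixingSubgroup.comap ρ, a υ = 0 := by
    intro υ hυ
    apply ex_mul_inj hξ hr0
    rw [← ha, ex_zero, one_mul]
    have e : r = 1 - W 0 ^ p := by
      rw [hW, ex_zero]
      ring
    rw [e, map_sub, map_one, map_pow, hSW υ hυ]
  have hSd : ∀ υ ∈ M.fixingSubgroup.comap ρ, ∀ c, d υ c = 0 := by
    intro υ hυ c
    apply ex_mul_inj hξ (hW0 c)
    rw [← hd, hSa υ hυ, sub_zero, hSW υ hυ, ex_zero, one_mul]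
  refine ⟨fun σ => ∑ c : ZMod p, c * d σ c, lc_of hSo ?_, ?_⟩
  · intro σ υ hυ
    refine Finset.sum_congr rfl fun c _ => ?_
    rw [hdd, hSd υ hυ, add_zero]
  · intro σ τ
    have h1 : ∑ c : ZMod p, c * d τ (c - a σ) = ∑ c : ZMod p, (c + a σ) * d τ c := by
      rw [← Equiv.sum_comp (Equiv.subRight (a σ)) (fun c => (c + a σ) * d τ c)]
      refine Finset.sum_congr rfl fun c _ => ?_
      rw [Equiv.subRight_apply, sub_add_cancel]
    dsimp only
    rw [Finset.sum_congr rfl (fun c _ => by rw [hdd, mul_add] :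
      ∀ c ∈ (Finset.univ : Finset (ZMod p)), c * d (σ * τ) c = c * d σ c + c * d τ (c - a σ)),
      Finset.sum_add_distrib, h1]
    rw [Finset.sum_congr rfl (fun c _ => add_mul c (a σ) (d τ c)), Finset.sum_add_distrib,
      ← Finset.mul_sum, hsum, ← add_assoc]

end

end Pool.Agent.Helper58.BP
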