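import Mathlib
import Pool.Agent.Helper58.BP.Stb
import Pool.Agent.Helper58.BP.Cls

set_option autoImplicit false

/-! The characters of the classes and the groups of the classes with trivial cup products. -/

namespace Pool.Agent.Helper58.BP

section

variable {p : ℕ} [Fact p.Prime] {E : Type} [Field E] (Ω : Type) [Field Ω] [Algebra E Ω]
  [IsAlgClosed Ω]

lemma exists_rt (a : Sc p E) : ∃ t : Ω, t ^ p = algebraMap E Ω (rp a) :=
  IsAlgClosed.exists_pow_nat_eq _ (Fact.out : p.Prime).pos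

/-- a root of a representative -/
noncomputable def rt (a : Sc p E) : Ω := Classical.choose (exists_rt Ω a)

lemma rt_pow (a : Sc p E) : rt Ω a ^ p = algebraMap E Ω (rp a) := Classical.choose_spec (exists_rt Ω a)

/-- the character of a class -/
noncomputable def X (ζ : E) (a : Sc p E) (σ : Ω ≃ₐ[E] Ω) : ZMod p :=
  Classical.epsilon (fun c => σ (rt Ω a) = ex (algebraMap E Ω ζ) c * rt Ω a)

variable {Ω} {ζ : E}

lemma root_ne' {x : Ω} {c : Eˣ} (hx : x ^ p = algebraMap E Ω c) : x ≠ 0 := by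
  rintro rfl
  rw [zero_pow (Fact.out : p.Prime).ne_zero, eq_comm, map_eq_zero] at hx
  exact c.ne_zero hx

lemma X_eq (hζ : IsPrimitiveRoot ζ p) {u : Eˣ} {t : Ω} (ht : t ^ p = algebraMap E Ω u)
    (σ : Ω ≃ₐ[E] Ω) : σ t = ex (algebraMap E Ω ζ) (X Ω ζ (cl u : Sc p E) σ) * t := by
  have hξ : IsPrimitiveRoot (algebraMap E Ω ζ) p := hζ.map_of_injective (algebraMap E Ω).injective
  obtain ⟨c, hc⟩ := cl_eq.1 (cl_rp (cl u : Sc p E)).symm
  have ht0 := root_ne' ht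
  have hr := rt_pow Ω (cl u : Sc p E)
  have hr0 := root_ne' hr
  have h1 : σ (rt Ω (cl u : Sc p E)) = ex (algebraMap E Ω ζ) (X Ω ζ (cl u : Sc p E) σ) *
      rt Ω (cl u : Sc p E) := by
    apply Classical.epsilon_spec (p := fun c => σ (rt Ω (cl u : Sc p E)) =
      ex (algebraMap E Ω ζ) c * rt Ω (cl u : Sc p E))
    apply exists_ex_mul hξ hr0
    rw [← map_pow, hr, AlgEquiv.commutes]
  obtain ⟨m, hm⟩ := exists_ex_mul hξ (x := rt Ω (cl u : Sc p E)) (y := t * algebraMap E Ω c)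
    (mul_ne_zero ht0 (by rw [Ne, map_eq_zero]; exact c.ne_zero)) (by
      rw [hr, hc, mul_pow, ht, Units.val_mul, Units.val_pow_eq_pow_val, map_mul, map_pow])
  have hc0 : algebraMap E Ω c ≠ 0 := by rw [Ne, map_eq_zero]; exact c.ne_zero
  rw [hm, map_mul, ex_fix, map_mul, AlgEquiv.commutes] at h1
  apply mul_left_cancel₀ (mul_ne_zero (ex_ne hξ m) hc0)
  linear_combination h1

lemma X_uniq (hζ : IsPrimitiveRoot ζ p) {u : Eˣ} {t : Ω} (ht : t ^ p = algebraMap E Ω u)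
    {σ : Ω ≃ₐ[E] Ω} {c : ZMod p} (hc : σ t = ex (algebraMap E Ω ζ) c * t) :
    X Ω ζ (cl u : Sc p E) σ = c := by
  have hξ : IsPrimitiveRoot (algebraMap E Ω ζ) p := hζ.map_of_injective (algebraMap E Ω).injective
  apply ex_mul_inj hξ (root_ne' ht)
  rw [← hc]
  exact (X_eq hζ ht σ).symm

lemma exists_root (u : Eˣ) : ∃ t : Ω, t ^ p = algebraMap E Ω u :=
  IsAlgClosed.exists_pow_nat_eq _ (Fact.out : p.Prime).pos

lemma X_mul (hζ : IsPrimitiveRoot ζ p) (a b : Sc p E) (σ : Ω ≃ₐ[E] Ω) :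
    X Ω ζ (a * b) σ = X Ω ζ a σ + X Ω ζ b σ := by
  have hξ : IsPrimitiveRoot (algebraMap E Ω ζ) p := hζ.map_of_injective (algebraMap E Ω).injective
  obtain ⟨u, rfl⟩ := cl_surj a
  obtain ⟨v, rfl⟩ := cl_surj b
  obtain ⟨t, ht⟩ := exists_root (p := p) (Ω := Ω) u
  obtain ⟨s, hs⟩ := exists_root (p := p) (Ω := Ω) v
  rw [← map_mul]
  apply X_uniq hζ (t := t * s)
  · rw [mul_pow, ht, hs, Units.val_mul, map_mul]
  · rw [map_mul, X_eq hζ ht σ, X_eq hζ hs σ, ex_add hξ]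
    ring

lemma X_one (hζ : IsPrimitiveRoot ζ p) (σ : Ω ≃ₐ[E] Ω) : X Ω ζ (1 : Sc p E) σ = 0 := by
  have := X_mul hζ (1 : Sc p E) 1 σ
  rw [mul_one] at this
  exact left_eq_add.1 this

lemma X_inv (hζ : IsPrimitiveRoot ζ p) (a : Sc p E) (σ : Ω ≃ₐ[E] Ω) :
    X Ω ζ a⁻¹ σ = - X Ω ζ a σ := by
  have := X_mul hζ a a⁻¹ σ
  rw [mul_inv_cancel, X_one hζ] at this
  exact (neg_eq_of_add_eq_zero_right this.symm).symm

lemma X_comp (hζ : IsPrimitiveRoot ζ p) (a : Sc p E) (σ τ : Ω ≃ₐ[E] Ω) :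
    X Ω ζ a (σ * τ) = X Ω ζ a σ + X Ω ζ a τ := by
  have hξ : IsPrimitiveRoot (algebraMap E Ω ζ) p := hζ.map_of_injective (algebraMap E Ω).injective
  obtain ⟨u, rfl⟩ := cl_surj a
  obtain ⟨t, ht⟩ := exists_root (p := p) (Ω := Ω) u
  apply X_uniq hζ ht
  rw [AlgEquiv.mul_apply, X_eq hζ ht τ, map_mul, ex_fix, X_eq hζ ht σ, ex_add hξ]
  ring

lemma X_lc [IsGalois E Ω] (hζ : IsPrimitiveRoot ζ p) (a : Sc p E) :
    IsLocallyConstant (X Ω ζ a) := by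
  obtain ⟨u, rfl⟩ := cl_surj a
  obtain ⟨t, ht⟩ := exists_root (p := p) (Ω := Ω) u
  have hfin : FiniteDimensional E (IntermediateField.adjoin E {t}) :=
    IntermediateField.adjoin.finiteDimensional (Algebra.IsIntegral.isIntegral t)
  refine lc_of (IntermediateField.adjoin E {t}).fixingSubgroup_isOpen ?_
  intro σ υ hυ
  rw [IntermediateField.mem_fixingSubgroup_iff] at hυ
  rw [X_comp hζ]
  have : X Ω ζ (cl u : Sc p E) υ = 0 := by
    apply X_uniq hζ ht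
    rw [ex_zero, one_mul]
    exact hυ t (IntermediateField.mem_adjoin_simple_self E t)
  rw [this, add_zero]

lemma X_zero [IsGalois E Ω] (hζ : IsPrimitiveRoot ζ p) {a : Sc p E}
    (h : ∀ σ : Ω ≃ₐ[E] Ω, X Ω ζ a σ = 0) : a = 1 := by
  obtain ⟨u, rfl⟩ := cl_surj a
  obtain ⟨t, ht⟩ := exists_root (p := p) (Ω := Ω) u
  have h1 : ∀ σ : Ω ≃ₐ[E] Ω, σ t = t := by
    intro σ
    have := X_eq hζ ht σ
    rwa [h, ex_zero, one_mul] at this
  obtain ⟨c, hc⟩ := (InfiniteGalois.mem_range_algebraMap_iff_fixed t).2 h1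
  have hc0 : c ≠ 0 := by
    rintro rfl
    rw [map_zero] at hc
    exact root_ne' ht hc.symm
  rw [cl_one]
  refine ⟨Units.mk0 c hc0, ?_⟩
  ext
  apply (algebraMap E Ω).injective
  rw [← ht, ← hc, Units.val_pow_eq_pow_val, Units.val_mk0, map_pow]

variable (Ω) in
/-- the classes for which the cup product with the class `a` is zero -/
noncomputable def Nc (hζ : IsPrimitiveRoot ζ p) (a : Sc p E) : Subgroup (Sc p E) where
  carrier := {b | ∃ γ : (Ω ≃ₐ[E] Ω) → ZMod p, IsLocallyConstant γ ∧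
    ∀ σ τ, γ (σ * τ) = γ σ + γ τ + X Ω ζ a σ * X Ω ζ b τ}
  one_mem' := ⟨0, IsLocallyConstant.const 0, fun σ τ => by rw [X_one hζ]; simp⟩
  mul_mem' := by
    rintro b c ⟨γ, h1, h2⟩ ⟨γ', h1', h2'⟩
    refine ⟨γ + γ', h1.add h1', fun σ τ => ?_⟩
    rw [Pi.add_apply, h2, h2', Pi.add_apply, Pi.add_apply, X_mul hζ]
    ring
  inv_mem' := by
    rintro b ⟨γ, h1, h2⟩
    refine ⟨-γ, h1.neg, fun σ τ => ?_⟩
    rw [Pi.neg_apply, h2, Pi.neg_apply, Pi.neg_apply, X_inv hζ]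
    ring

lemma mem_Nc {hζ : IsPrimitiveRoot ζ p} {a b : Sc p E} : b ∈ Nc Ω hζ a ↔
    ∃ γ : (Ω ≃ₐ[E] Ω) → ZMod p, IsLocallyConstant γ ∧
      ∀ σ τ, γ (σ * τ) = γ σ + γ τ + X Ω ζ a σ * X Ω ζ b τ := Iff.rfl

lemma Nc_symm [IsGalois E Ω] (hζ : IsPrimitiveRoot ζ p) (a b : Sc p E) (h : b ∈ Nc Ω hζ a) :
    a ∈ Nc Ω hζ b := by
  obtain ⟨γ, h1, h2⟩ := mem_Nc.1 h
  refine ⟨X Ω ζ a * X Ω ζ b - γ, ((X_lc hζ a).mul (X_lc hζ b)).sub h1, fun σ τ => ?_⟩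
  rw [Pi.sub_apply, Pi.mul_apply, h2, X_comp hζ, X_comp hζ, Pi.sub_apply, Pi.mul_apply,
    Pi.sub_apply, Pi.mul_apply]
  ring

lemma Nc_sum (hζ : IsPrimitiveRoot ζ p) (u v : Eˣ) (huv : (u : E) + v = 1) :
    cl v ∈ Nc Ω hζ (cl u) := by
  have hξ : IsPrimitiveRoot (algebraMap E Ω ζ) p := hζ.map_of_injective (algebraMap E Ω).injective
  obtain ⟨t, ht⟩ := exists_root (p := p) (Ω := Ω) u
  obtain ⟨s, hs⟩ := exists_root (p := p) (Ω := Ω) v
  rw [mem_Nc]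
  exact stb (ρ := MonoidHom.id (Ω ≃ₐ[E] Ω)) continuous_id hξ u.ne_zero v.ne_zero huv
    (fun r _ => IsAlgClosed.exists_pow_nat_eq _ (Fact.out : p.Prime).pos) ht hs
    (fun σ => X_eq hζ ht σ) (fun σ => X_eq hζ hs σ)

end

end Pool.Agent.Helper58.BP
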