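import Mathlib
import Pool.Agent.Helper58.BP.Nf

set_option autoImplicit false

/-! The valuation ring of an algebraic extension of a complete field. -/

namespace Pool.Agent.Helper58.BP

open Pool.Agent.Y920.EP Pool.Agent.Helper58.EB Pool.Agent.Helper58.ET

section

variable (E : Type) [NontriviallyNormedField E] [IsUltrametricDist E] [CompleteSpace E]
  (Ω : Type) [Field Ω] [Algebra E Ω] [Algebra.IsAlgebraic E Ω]

variable {Ω} in
lemma sn_mul (x y : Ω) : spectralNorm E Ω (x * y) = spectralNorm E Ω x * spectralNorm E Ω y :=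
  spectralAlgNorm_mul x y

variable {Ω} in
lemma sn_add (x y : Ω) : spectralNorm E Ω (x + y) ≤ max (spectralNorm E Ω x) (spectralNorm E Ω y) :=
  isNonarchimedean_spectralNorm x y

variable {Ω} in
lemma sn_pos {x : Ω} (hx : x ≠ 0) : 0 < spectralNorm E Ω x :=
  spectralNorm_zero_lt hx (Algebra.IsAlgebraic.isAlgebraic x)

variable {Ω} in
lemma sn_inv (x : Ω) : spectralNorm E Ω x⁻¹ = (spectralNorm E Ω x)⁻¹ := by
  by_cases hx : x = 0
  · rw [hx, inv_zero, spectralNorm_zero, inv_zero]
  · have h1 := sn_mul E x x⁻¹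
    rw [mul_inv_cancel₀ hx, spectralNorm_one] at h1
    exact eq_inv_of_mul_eq_one_right h1.symm

/-- the valuation ring of the spectral norm -/
def Sw : ValuationSubring Ω where
  carrier := {x | spectralNorm E Ω x ≤ 1}
  mul_mem' := by
    intro a b ha hb
    change spectralNorm E Ω (a * b) ≤ 1
    rw [sn_mul]
    exact mul_le_one₀ ha (spectralNorm_nonneg b) hb
  one_mem' := by
    change spectralNorm E Ω (1 : Ω) ≤ 1
    rw [spectralNorm_one]
  add_mem' := by
    intro a b ha hb
    exact (sn_add E a b).trans (max_le ha hb)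
  zero_mem' := by
    change spectralNorm E Ω (0 : Ω) ≤ 1
    rw [spectralNorm_zero]
    exact zero_le_one
  neg_mem' := by
    intro a ha
    change spectralNorm E Ω (-a) ≤ 1
    rw [spectralNorm_neg (Algebra.IsAlgebraic.isAlgebraic a)]
    exact ha
  mem_or_inv_mem' := by
    intro a
    rcases le_total (spectralNorm E Ω a) 1 with h | h
    · exact Or.inl h
    · right
      change spectralNorm E Ω a⁻¹ ≤ 1
      rw [sn_inv]
      exact inv_le_one_of_one_le₀ h

variable {E Ω}

lemma mem_Sw {x : Ω} : x ∈ Sw E Ω ↔ spectralNorm E Ω x ≤ 1 := Iff.rfl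

lemma Sw_le {x y : Ω} : (Sw E Ω).valuation x ≤ (Sw E Ω).valuation y ↔
    spectralNorm E Ω x ≤ spectralNorm E Ω y := by
  by_cases hy : y = 0
  · rw [hy, map_zero, le_zero_iff, map_eq_zero, spectralNorm_zero]
    constructor
    · rintro rfl
      rw [spectralNorm_zero]
    · intro h
      by_contra hx
      exact absurd (sn_pos E hx) (not_lt.2 h)
  have h1 : 0 < (Sw E Ω).valuation y := zero_lt_iff.2 ((Valuation.ne_zero_iff _).2 hy)
  have h2 := sn_pos E hy
  rw [← div_le_one₀ h1, ← map_div₀, ValuationSubring.valuation_le_one_iff, mem_Sw, div_eq_mul_inv,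
    sn_mul, sn_inv, ← div_eq_mul_inv, div_le_one₀ h2]

lemma Sw_eq {x y : Ω} : (Sw E Ω).valuation x = (Sw E Ω).valuation y ↔
    spectralNorm E Ω x = spectralNorm E Ω y := by
  rw [le_antisymm_iff, le_antisymm_iff, Sw_le, Sw_le]

lemma Sw_lt {x y : Ω} : (Sw E Ω).valuation x < (Sw E Ω).valuation y ↔
    spectralNorm E Ω x < spectralNorm E Ω y := by
  rw [← not_le, ← not_le, Sw_le]

lemma Sw_map (σ : Ω ≃ₐ[E] Ω) (x : Ω) : (Sw E Ω).valuation (σ x) = (Sw E Ω).valuation x := by
  rw [Sw_eq, ← spectralNorm_eq_of_equiv]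

lemma Sw_alg (x y : E) : (Sw E Ω).valuation (algebraMap E Ω x) ≤
    (Sw E Ω).valuation (algebraMap E Ω y) ↔ (BS.Ob E).valuation x ≤ (BS.Ob E).valuation y := by
  rw [Sw_le, spectralNorm_extends, spectralNorm_extends, BS.Ob_le]

lemma Sw_alg_lt (x y : E) : (Sw E Ω).valuation (algebraMap E Ω x) <
    (Sw E Ω).valuation (algebraMap E Ω y) ↔ (BS.Ob E).valuation x < (BS.Ob E).valuation y := by
  rw [← not_le, ← not_le, Sw_alg]

end

/-- polynomials of small degree with small values at many points -/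
lemma coeff_small {p : ℕ} [Fact p.Prime] {Ω : Type} [Field Ω] (W : ValuationSubring Ω)
    {θ : ZMod p → Ω} (hθ : ∀ c, W.valuation (θ c) ≤ 1)
    (hd : ∀ c d, c ≠ d → ¬ W.valuation (θ c - θ d) < 1) {a : ℕ → Ω}
    (ha : ∀ m, W.valuation (a m) ≤ 1)
    (h : ∀ c, W.valuation (∑ m ∈ Finset.range p, a m * θ c ^ m) < 1) :
    ∀ m < p, W.valuation (a m) < 1 := by
  classical
  have hp : p.Prime := Fact.out
  have haO : ∀ m, a m ∈ W := fun m => (W.valuation_le_one_iff _).1 (ha m)
  have hθO : ∀ c, θ c ∈ W := fun c => (W.valuation_le_one_iff _).1 (hθ c)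
  obtain ⟨Q, hQ⟩ : ∃ Q : Polynomial (IsLocalRing.ResidueField W), Q = ∑ m ∈ Finset.range p,
    Polynomial.C (IsLocalRing.residue W ⟨a m, haO m⟩) * Polynomial.X ^ m := ⟨_, rfl⟩
  have hQ0 : Q = 0 := by
    refine Polynomial.eq_zero_of_natDegree_lt_card_of_eval_eq_zero Q
      (f := fun c : ZMod p => IsLocalRing.residue W ⟨θ c, hθO c⟩) ?_ ?_ ?_
    · intro c d hcd
      by_contra hne
      apply hd c d hne
      have h1 := residue_eq_zero_iff W (⟨θ c, hθO c⟩ - ⟨θ d, hθO d⟩)
      rw [map_sub, sub_eq_zero] at h1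
      exact h1.1 hcd
    · intro c
      rw [hQ, Polynomial.eval_finset_sum]
      simp only [Polynomial.eval_mul, Polynomial.eval_C, Polynomial.eval_pow, Polynomial.eval_X]
      have h1 := (residue_eq_zero_iff W (∑ m ∈ Finset.range p, ⟨a m, haO m⟩ * ⟨θ c, hθO c⟩ ^ m)).2
        (by
          have := h c
          push_cast
          exact this)
      rw [map_sum] at h1
      simpa only [map_mul, map_pow] using h1
    · rw [ZMod.card]
      rw [hQ]
      refine lt_of_le_of_lt (Polynomial.natDegree_sum_le_of_forall_le (n := p - 1) _ _ ?_)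
        (Nat.sub_lt hp.pos one_pos)
      intro m hm
      rw [Finset.mem_range] at hm
      exact (Polynomial.natDegree_C_mul_X_pow_le _ _).trans (by omega)
  intro m hm
  have h2 : Q.coeff m = IsLocalRing.residue W ⟨a m, haO m⟩ := by
    rw [hQ, Polynomial.finsetSum_coeff]
    simp only [Polynomial.coeff_C_mul, Polynomial.coeff_X_pow, mul_ite, mul_one, mul_zero]
    rw [Finset.sum_ite_eq, if_pos (Finset.mem_range.2 hm)]
  rw [hQ0, Polynomial.coeff_zero] at h2
  exact (residue_eq_zero_iff W ⟨a m, haO m⟩).1 h2.symm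

end Pool.Agent.Helper58.BP
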