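import Mathlib
import Pool.Agent.Helper58.BP.Spn
import Pool.Agent.Helper58.BP.Cup

set_option autoImplicit false

/-! The unramified extension of degree `p`. -/

namespace Pool.Agent.Helper58.BP

open Pool.Agent.Y920.EP Pool.Agent.Helper58.EB Pool.Agent.Helper58.ET

section

variable {p : ℕ} [Fact p.Prime] {F : Type} [Field F] {ξ : F}

lemma ex_powval (h : IsPrimitiveRoot ξ p) (a : ZMod p) (n : ℕ) :
    ex ξ a ^ n = ex ξ ((n : ZMod p) * a) := by
  have h1 : ((n : ZMod p) * a) = ((a.val * n : ℕ) : ZMod p) := by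
    push_cast
    rw [ZMod.natCast_zmod_val, mul_comm]
  rw [h1, ex_nat h, pow_mul]
  rfl

/-- orthogonality -/
lemma ex_orth (h : IsPrimitiveRoot ξ p) (d : ZMod p) :
    ∑ c : ZMod p, ex ξ (c * d) = if d = 0 then (p : F) else 0 := by
  classical
  split_ifs with hd
  · rw [hd]
    simp only [mul_zero, ex_zero]
    rw [Finset.sum_const, Finset.card_univ, ZMod.card, nsmul_eq_mul, mul_one]
  · have h1 : ex ξ d * ∑ c : ZMod p, ex ξ (c * d) = ∑ c : ZMod p, ex ξ (c * d) := by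
      rw [Finset.mul_sum]
      refine Fintype.sum_equiv (Equiv.addRight 1) _ _ fun c => ?_
      rw [Equiv.coe_addRight, ← ex_add h]
      congr 1
      ring
    by_contra hne
    apply hd
    apply ex_eq_one h
    exact mul_right_cancel₀ hne (by rw [h1, one_mul])

/-- differences of the roots of unity -/
lemma val_ex (h : IsPrimitiveRoot ξ p) (W : ValuationSubring F) {c d : ZMod p} (hcd : c ≠ d) :
    W.valuation (ex ξ c - ex ξ d) = W.valuation (1 - ξ) := by
  have hp : p.Prime := Fact.out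
  obtain ⟨ξ', hξ'⟩ : ∃ ξ' : Fˣ, (ξ' : F) = ξ := ⟨Units.mk0 ξ (h.ne_zero hp.ne_zero), Units.val_mk0 _⟩
  have hξ : IsPrimitiveRoot ξ' p := by
    rw [← IsPrimitiveRoot.coe_units_iff, hξ']
    exact h
  have key : ∀ e : ZMod p, e ≠ 0 → W.valuation (1 - ex ξ e) = W.valuation (1 - ξ) := by
    intro e he
    obtain ⟨η, hη⟩ : ∃ η : Fˣ, (η : F) = ex ξ e := ⟨Units.mk0 _ (ex_ne h e), Units.val_mk0 _⟩
    have hη' : IsPrimitiveRoot (ex ξ e) p := by
      have h1 : orderOf (ex ξ e) = p := orderOf_eq_prime (ex_pow h e) fun h2 => he (ex_eq_one h h2)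
      have h2 := IsPrimitiveRoot.orderOf (ex ξ e)
      rwa [h1] at h2
    apply le_antisymm
    · have := val_one_sub hp hξ W (η := ex ξ e) (by
        rw [Polynomial.mem_nthRootsFinset hp.pos]
        exact ex_pow h e)
      rwa [hξ'] at this
    · have := val_one_sub hp (ζ := η) (by
        rw [← IsPrimitiveRoot.coe_units_iff, hη]
        exact hη') W (η := ξ) (by
        rw [Polynomial.mem_nthRootsFinset hp.pos]
        exact h.pow_eq_one)
      rwa [hη] at this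
  have hz : W.valuation (ex ξ c) = 1 := by
    have h1 : W.valuation (ex ξ c) ^ p = 1 := by
      rw [← map_pow, ex_pow h, map_one]
    exact (pow_eq_one_iff_of_nonneg zero_le hp.ne_zero).1 h1
  have e : ex ξ c - ex ξ d = ex ξ c * (1 - ex ξ (d - c)) := by
    rw [mul_sub, mul_one, ← ex_add h]
    congr 2
    ring
  rw [e, map_mul, hz, one_mul]
  exact key _ (sub_ne_zero.2 (Ne.symm hcd))

/-- roots of elements close to one -/
lemma val_root (h : IsPrimitiveRoot ξ p) (W : ValuationSubring F) {s w : F}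
    (hw : W.valuation w ≤ 1) (hs : s ^ p = 1 + (1 - ξ) ^ p * w) :
    W.valuation (s - 1) ≤ W.valuation (1 - ξ) := by
  have hp : p.Prime := Fact.out
  obtain ⟨ξ', hξ'⟩ : ∃ ξ' : Fˣ, (ξ' : F) = ξ := ⟨Units.mk0 ξ (h.ne_zero hp.ne_zero), Units.val_mk0 _⟩
  have hξ : IsPrimitiveRoot ξ' p := by
    rw [← IsPrimitiveRoot.coe_units_iff, hξ']
    exact h
  by_contra h1
  rw [not_le] at h1
  obtain ⟨μ, hμ, e⟩ := exists_sub_pow hp hξ W (x := s) (y := 1) (by
    rw [map_one, mul_one, hξ']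
    exact h1)
  have h2 := congrArg W.valuation e
  rw [one_pow, hs, add_sub_cancel_left, map_mul, map_pow, map_mul, map_pow,
    val_one_add W hμ, mul_one] at h2
  have h3 := pow_lt_pow_left₀ h1 zero_le hp.ne_zero
  rw [← h2] at h3
  exact absurd h3 (not_lt.2 (mul_le_of_le_one_right zero_le hw))

end

section

variable {p : ℕ} [Fact p.Prime] {E : Type} [NontriviallyNormedField E] [IsUltrametricDist E]
  [CompleteSpace E] {Ω : Type} [Field Ω] [Algebra E Ω] [IsAlgClosed Ω] [IsGalois E Ω] {ζ : E}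

lemma X_pow (hζ : IsPrimitiveRoot ζ p) (a : Sc p E) (σ : Ω ≃ₐ[E] Ω) (n : ℕ) :
    X Ω ζ a (σ ^ n) = n * X Ω ζ a σ := by
  induction n with
  | zero =>
    rw [pow_zero]
    have := X_comp hζ a (1 : Ω ≃ₐ[E] Ω) 1
    rw [mul_one] at this
    rw [left_eq_add.1 this]
    simp
  | succ n ih =>
    rw [pow_succ, X_comp hζ, ih]
    push_cast
    ring

/-- the values of the elements of the unramified extension -/
theorem val_fixed (hζ : IsPrimitiveRoot ζ p) (hpE : ‖(p : E)‖ < 1) {G : Eˣ} {z₀ : E}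
    (hz₀ : (BS.Ob E).valuation z₀ ≤ 1) (hG : (G : E) = 1 + (1 - ζ) ^ p * z₀)
    {τ : Ω ≃ₐ[E] Ω} (hτ : X Ω ζ (cl G : Sc p E) τ = 1) {z : Ω} (hz0 : z ≠ 0)
    (hz : ∀ σ : Ω ≃ₐ[E] Ω, X Ω ζ (cl G : Sc p E) σ = 0 → σ z = z) :
    ∃ a : Eˣ, (Sw E Ω).valuation z = (Sw E Ω).valuation (algebraMap E Ω a) := by
  classical
  have hp : p.Prime := Fact.out
  obtain ⟨ξ, hξe⟩ : ∃ ξ, ξ = algebraMap E Ω ζ := ⟨_, rfl⟩
  have hξ : IsPrimitiveRoot ξ p := by
    rw [hξe]
    exact hζ.map_of_injective (algebraMap E Ω).injective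
  obtain ⟨x, hx⟩ : ∃ x : (Ω ≃ₐ[E] Ω) → ZMod p, x = X Ω ζ (cl G : Sc p E) := ⟨_, rfl⟩
  have hxc : ∀ σ υ, x (σ * υ) = x σ + x υ := by
    intro σ υ
    rw [hx]
    exact X_comp hζ _ σ υ
  have hx1 : x 1 = 0 := by
    have := hxc 1 1
    rw [mul_one] at this
    exact left_eq_add.1 this
  rw [← hx] at hτ
  have hxinv : ∀ σ, x σ⁻¹ = - x σ := by
    intro σ
    have := hxc σ σ⁻¹
    rw [mul_inv_cancel, hx1] at this
    exact (neg_eq_of_add_eq_zero_right this.symm).symm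
  obtain ⟨t, ht⟩ := exists_root (p := p) (Ω := Ω) G
  have ht0 := root_ne' ht
  have hσt : ∀ σ, σ t = ex ξ (x σ) * t := by
    intro σ
    rw [hx, hξe]
    exact X_eq hζ ht σ
  have hfix : ∀ (σ : Ω ≃ₐ[E] Ω) (c : ZMod p), σ (ex ξ c) = ex ξ c := by
    intro σ c
    rw [hξe]
    exact ex_fix σ c
  have hact : ∀ σ υ : Ω ≃ₐ[E] Ω, x σ = x υ → σ z = υ z := by
    intro σ υ h
    have h1 := congrArg υ (hz (υ⁻¹ * σ) (by rw [← hx, hxc, hxinv, h, neg_add_cancel]))
    rwa [← AlgEquiv.mul_apply, mul_inv_cancel_left] at h1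
  have hxpow : ∀ c : ZMod p, x (τ ^ c.val) = c := by
    intro c
    have := X_pow hζ (cl G : Sc p E) τ c.val
    rw [← hx, hτ, mul_one, ZMod.natCast_zmod_val] at this
    exact this
  obtain ⟨Z, hZ⟩ : ∃ Z : ZMod p → Ω, ∀ c, Z c = (τ ^ c.val) z := ⟨_, fun _ => rfl⟩
  have hZ0 : Z 0 = z := by rw [hZ, ZMod.val_zero, pow_zero, AlgEquiv.one_apply]
  have hσZ : ∀ σ c, σ (Z c) = Z (c + x σ) := by
    intro σ c
    rw [hZ, hZ, ← AlgEquiv.mul_apply]
    apply hact
    rw [hxc, hxpow, hxpow, add_comm]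
  -- the components
  have hb' : ∀ c : ZMod p, ∃ b : E, algebraMap E Ω b =
      (∑ d : ZMod p, ex ξ (-(c * d)) * Z d) / t ^ c.val := by
    intro c
    refine (InfiniteGalois.mem_range_algebraMap_iff_fixed _).2 fun σ => ?_
    have h1 : σ (∑ d : ZMod p, ex ξ (-(c * d)) * Z d) =
        ex ξ (c * x σ) * ∑ d : ZMod p, ex ξ (-(c * d)) * Z d := by
      rw [map_sum, Finset.mul_sum]
      refine Fintype.sum_equiv (Equiv.addRight (x σ)) _ _ fun d => ?_
      rw [Equiv.coe_addRight, map_mul, hfix, hσZ, ← mul_assoc, ← ex_add hξ]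
      congr 2
      ring
    have h2 : σ (t ^ c.val) = ex ξ (c * x σ) * t ^ c.val := by
      rw [map_pow, hσt, mul_pow, ex_powval hξ, ZMod.natCast_zmod_val]
    rw [map_div₀, h1, h2, mul_div_mul_left _ _ (ex_ne hξ _)]
  choose b hb using hb'
  have hp0 : (p : E) ≠ 0 := by
    intro e
    have h1 := (hζ.map_of_injective (f := RingHom.id E) (RingHom.id E).injective)
    obtain ⟨ζ', hζ'⟩ : ∃ ζ' : Eˣ, (ζ' : E) = ζ := ⟨Units.mk0 ζ (hζ.ne_zero hp.ne_zero), Units.val_mk0 _⟩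
    have h2 : IsPrimitiveRoot ζ' p := by
      rw [← IsPrimitiveRoot.coe_units_iff, hζ']
      exact hζ
    have h3 := val_p hp h2 (BS.Ob E)
    rw [e, map_zero, eq_comm, pow_eq_zero_iff (by have := hp.two_le; omega), map_eq_zero] at h3
    exact lam_ne hp h2 h3
  have hp0' : (p : Ω) ≠ 0 := by
    rw [← map_natCast (algebraMap E Ω), Ne, map_eq_zero]
    exact hp0
  obtain ⟨θ, hθ⟩ : ∃ θ : ZMod p → Ω, ∀ c, θ c = (ex ξ c * t - 1) / (1 - ξ) := ⟨_, fun _ => rfl⟩
  have hl0 : 1 - ξ ≠ 0 := sub_ne_zero.2 (hξ.ne_one hp.one_lt).symm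
  have hθt : ∀ c, ex ξ c * t = (1 - ξ) * θ c + 1 := by
    intro c
    rw [hθ, mul_div_cancel₀ _ hl0]
    ring
  obtain ⟨a, ha⟩ : ∃ a : ℕ → E, ∀ m, a m = ∑ c : ZMod p, (b c / p) * (c.val.choose m : ℕ) *
    (1 - ζ) ^ m := ⟨_, fun _ => rfl⟩
  have hZa : ∀ d, Z d = ∑ m ∈ Finset.range p, algebraMap E Ω (a m) * θ d ^ m := by
    intro d
    have h1 : ∑ c : ZMod p, ex ξ (c * d) * ∑ e : ZMod p, ex ξ (-(c * e)) * Z e = p * Z d := by
      simp only [Finset.mul_sum]
      rw [Finset.sum_comm]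
      have h2 : ∀ e : ZMod p, ∑ c : ZMod p, ex ξ (c * d) * (ex ξ (-(c * e)) * Z e) =
          (if d - e = 0 then (p : Ω) else 0) * Z e := by
        intro e
        rw [← ex_orth hξ, Finset.sum_mul]
        refine Finset.sum_congr rfl fun c _ => ?_
        rw [← mul_assoc, ← ex_add hξ]
        congr 2
        ring
      rw [Finset.sum_congr rfl fun e _ => h2 e]
      simp only [sub_eq_zero, ite_mul, zero_mul]
      rw [Finset.sum_ite_eq, if_pos (Finset.mem_univ d)]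
    have h3 : ∀ c : ZMod p, ∑ e : ZMod p, ex ξ (-(c * e)) * Z e =
        algebraMap E Ω (b c) * t ^ c.val := by
      intro c
      rw [hb, div_mul_cancel₀ _ (pow_ne_zero _ ht0)]
    have h4 : ∀ c : ZMod p, ex ξ (c * d) * (algebraMap E Ω (b c) * t ^ c.val) =
        ∑ m ∈ Finset.range p, algebraMap E Ω (b c) * (c.val.choose m : ℕ) * (1 - ξ) ^ m *
          θ d ^ m := by
      intro c
      have h5 : ex ξ (c * d) * t ^ c.val = (ex ξ d * t) ^ c.val := by
        rw [mul_pow, ex_powval hξ, ZMod.natCast_zmod_val]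
      have h6 : ex ξ (c * d) * (algebraMap E Ω (b c) * t ^ c.val) =
          algebraMap E Ω (b c) * (ex ξ d * t) ^ c.val := by
        rw [← h5]
        ring
      rw [h6, hθt, add_pow, Finset.mul_sum]
      rw [← Finset.sum_subset (Finset.range_mono (Nat.succ_le_of_lt (ZMod.val_lt c)))]
      · refine Finset.sum_congr rfl fun m _ => ?_
        rw [one_pow, mul_pow]
        ring
      · intro m _ hm
        rw [Finset.mem_range, not_lt] at hm
        rw [Nat.choose_eq_zero_of_lt (by omega)]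
        simp
    have h7 : (p : Ω) * Z d = p * ∑ m ∈ Finset.range p, algebraMap E Ω (a m) * θ d ^ m := by
      rw [← h1, Finset.sum_congr rfl fun c _ => by rw [h3 c, h4 c], Finset.sum_comm,
        Finset.mul_sum]
      refine Finset.sum_congr rfl fun m _ => ?_
      rw [ha, map_sum, Finset.sum_mul, Finset.mul_sum]
      refine Finset.sum_congr rfl fun c _ => ?_
      simp only [map_mul, map_div₀, map_natCast, map_pow, map_sub, map_one]
      rw [← hξe]
      field_simp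
    exact mul_left_cancel₀ hp0' h7
  -- the values
  obtain ⟨W, hW⟩ : ∃ W, W = Sw E Ω := ⟨_, rfl⟩
  rw [← hW]
  have hWζ : W.valuation (1 - ξ) < 1 := by
    obtain ⟨ξ', hξ'⟩ : ∃ ξ' : Ωˣ, (ξ' : Ω) = ξ :=
      ⟨Units.mk0 ξ (hξ.ne_zero hp.ne_zero), Units.val_mk0 _⟩
    have h2 : IsPrimitiveRoot ξ' p := by
      rw [← IsPrimitiveRoot.coe_units_iff, hξ']
      exact hξ
    have h3 := val_lam' hp h2 W (by
      rw [hW, ← map_natCast (algebraMap E Ω), ← map_one (Sw E Ω).valuation,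
        ← map_one (algebraMap E Ω), Sw_alg_lt, BS.Ob_lt, norm_one]
      exact hpE)
    rwa [hξ'] at h3
  have hz₀' : W.valuation (algebraMap E Ω z₀) ≤ 1 := by
    rw [hW, ← map_one (Sw E Ω).valuation, ← map_one (algebraMap E Ω), Sw_alg, map_one]
    exact hz₀
  have hGW : algebraMap E Ω G = 1 + (1 - ξ) ^ p * algebraMap E Ω z₀ := by
    rw [hG, map_add, map_mul, map_pow, map_sub, map_one, hξe]
  have hθ1 : ∀ c, W.valuation (θ c) ≤ 1 := by
    intro c
    have h1 := val_root hξ W (s := ex ξ c * t) hz₀' (by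
      rw [mul_pow, ex_pow hξ, one_mul, ht, hGW])
    rw [hθ, map_div₀]
    exact div_le_one_of_le₀ h1 zero_le
  have ht1 : W.valuation t = 1 := by
    have h1 : W.valuation t ^ p = 1 := by
      rw [← map_pow, ht, hGW]
      apply val_one_add
      rw [map_mul, map_pow]
      exact mul_lt_one_of_nonneg_of_lt_one_left zero_le (pow_lt_one₀ zero_le hWζ hp.ne_zero) hz₀'
    exact (pow_eq_one_iff_of_nonneg zero_le hp.ne_zero).1 h1
  have hθ2 : ∀ c d, c ≠ d → ¬ W.valuation (θ c - θ d) < 1 := by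
    intro c d hcd
    have e : θ c - θ d = (ex ξ c - ex ξ d) * t / (1 - ξ) := by
      rw [hθ, hθ]
      ring
    rw [e, map_div₀, map_mul, ht1, mul_one, val_ex hξ W hcd, div_self]
    · exact lt_irrefl _
    · rw [Valuation.ne_zero_iff]
      exact hl0
  obtain ⟨m₀, hm₀, hmax⟩ := Finset.exists_max_image (Finset.range p) (fun m => ‖a m‖)
    ⟨0, Finset.mem_range.2 hp.pos⟩
  have ha0 : a m₀ ≠ 0 := by
    intro e
    apply hz0
    rw [← hZ0, hZa]
    apply Finset.sum_eq_zero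
    intro m hm
    have := hmax m hm
    rw [e, norm_zero, norm_le_zero_iff] at this
    rw [this, map_zero, zero_mul]
  have hmax' : ∀ m < p, W.valuation (algebraMap E Ω (a m)) ≤ W.valuation (algebraMap E Ω (a m₀)) := by
    intro m hm
    rw [hW, Sw_alg, BS.Ob_le]
    exact hmax m (Finset.mem_range.2 hm)
  have ha0' : algebraMap E Ω (a m₀) ≠ 0 := by
    rw [Ne, map_eq_zero]
    exact ha0
  have ha0v : 0 < W.valuation (algebraMap E Ω (a m₀)) :=
    zero_lt_iff.2 ((Valuation.ne_zero_iff _).2 ha0')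
  refine ⟨Units.mk0 _ ha0, ?_⟩
  rw [Units.val_mk0]
  have hle : W.valuation z ≤ W.valuation (algebraMap E Ω (a m₀)) := by
    rw [← hZ0, hZa]
    refine Valuation.map_sum_le _ fun m hm => ?_
    rw [map_mul, map_pow]
    refine (mul_le_of_le_one_right zero_le (pow_le_one₀ zero_le (hθ1 0))).trans ?_
    exact hmax' m (Finset.mem_range.1 hm)
  refine hle.eq_of_not_lt fun hlt => ?_
  have h1 := coeff_small W hθ1 hθ2 (a := fun m => if m < p then
      algebraMap E Ω (a m) / algebraMap E Ω (a m₀) else 0) (by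
    intro m
    split_ifs with hm
    · rw [map_div₀]
      exact div_le_one_of_le₀ (hmax' m hm) zero_le
    · rw [map_zero]
      exact zero_le) (by
    intro c
    have e : ∑ m ∈ Finset.range p, (if m < p then algebraMap E Ω (a m) / algebraMap E Ω (a m₀)
        else 0) * θ c ^ m = Z c / algebraMap E Ω (a m₀) := by
      rw [hZa, Finset.sum_div]
      refine Finset.sum_congr rfl fun m hm => ?_
      rw [if_pos (Finset.mem_range.1 hm)]
      ring
    rw [e, map_div₀, div_lt_one₀ ha0v, hZ, hW, Sw_map, ← hW]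
    exact hlt) m₀ (Finset.mem_range.1 hm₀)
  rw [if_pos (Finset.mem_range.1 hm₀), div_self ha0', map_one] at h1
  exact lt_irrefl _ h1

/-- the norms of the unramified extension -/
theorem even (hζ : IsPrimitiveRoot ζ p) (hpE : ‖(p : E)‖ < 1) {G : Eˣ} {z₀ : E}
    (hz₀ : (BS.Ob E).valuation z₀ ≤ 1) (hG : (G : E) = 1 + (1 - ζ) ^ p * z₀)
    (hG1 : (cl G : Sc p E) ≠ 1) {v : Eˣ} (hv : cl v ∈ Nc Ω hζ (cl G)) :
    ∃ s : Eˣ, (BS.Ob E).valuation (v : E) = (BS.Ob E).valuation (s : E) ^ p := by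
  have hp : p.Prime := Fact.out
  have hξ : IsPrimitiveRoot (algebraMap E Ω ζ) p := hζ.map_of_injective (algebraMap E Ω).injective
  -- an element on which the character is one
  obtain ⟨τ, hτ⟩ : ∃ τ : Ω ≃ₐ[E] Ω, X Ω ζ (cl G : Sc p E) τ = 1 := by
    obtain ⟨σ, hσ⟩ : ∃ σ : Ω ≃ₐ[E] Ω, X Ω ζ (cl G : Sc p E) σ ≠ 0 := by
      by_contra hcon
      push Not at hcon
      exact hG1 (X_zero hζ hcon)
    refine ⟨σ ^ (1 / X Ω ζ (cl G : Sc p E) σ).val, ?_⟩
    rw [X_pow hζ, ZMod.natCast_zmod_val, one_div, inv_mul_cancel₀ hσ]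
  obtain ⟨γ, hγ, hγ2⟩ := mem_Nc.1 hv
  let M : Subgroup (Ω ≃ₐ[E] Ω) :=
    { carrier := {σ | X Ω ζ (cl G : Sc p E) σ = 0}
      mul_mem' := by
        intro σ υ hσ hυ
        change X Ω ζ (cl G : Sc p E) (σ * υ) = 0
        have h1 : X Ω ζ (cl G : Sc p E) σ = 0 := hσ
        have h2 : X Ω ζ (cl G : Sc p E) υ = 0 := hυ
        rw [X_comp hζ, h1, h2, add_zero]
      one_mem' := by
        change X Ω ζ (cl G : Sc p E) 1 = 0
        have := X_comp hζ (cl G : Sc p E) (1 : Ω ≃ₐ[E] Ω) 1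
        rw [mul_one] at this
        exact left_eq_add.1 this
      inv_mem' := by
        intro σ hσ
        change X Ω ζ (cl G : Sc p E) σ⁻¹ = 0
        have h1 : X Ω ζ (cl G : Sc p E) σ = 0 := hσ
        have h2 := X_comp hζ (cl G : Sc p E) (1 : Ω ≃ₐ[E] Ω) 1
        rw [mul_one] at h2
        have h3 := X_comp hζ (cl G : Sc p E) σ σ⁻¹
        rw [mul_inv_cancel, left_eq_add.1 h2, h1, zero_add] at h3
        exact h3.symm }
  have hM : ∀ σ, σ ∈ M ↔ X Ω ζ (cl G : Sc p E) σ = 0 := fun σ => Iff.rfl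
  have hMc : IsClosed (M : Set (Ω ≃ₐ[E] Ω)) := (X_lc hζ (cl G : Sc p E)).isClosed_fiber 0
  obtain ⟨y, hy0, hy⟩ := kummer hξ hMc hγ (by
    intro σ hσ υ _
    rw [hγ2, (hM σ).1 hσ, zero_mul, add_zero])
  obtain ⟨s, hs⟩ := exists_root (p := p) (Ω := Ω) v
  have hs0 := root_ne' hs
  have hτy0 : τ y ≠ 0 := by rwa [Ne, EmbeddingLike.map_eq_zero_iff]
  have hz : ∀ σ : Ω ≃ₐ[E] Ω, X Ω ζ (cl G : Sc p E) σ = 0 → σ (τ y * s / y) = τ y * s / y := by
    intro σ hσ
    obtain ⟨c, hc⟩ : ∃ c, c = τ⁻¹ * σ * τ := ⟨_, rfl⟩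
    have e1 : τ * c = σ * τ := by rw [hc]; group
    have h1 := congrArg (X Ω ζ (cl G : Sc p E)) e1
    rw [X_comp hζ, X_comp hζ, hσ, zero_add] at h1
    have hcG : X Ω ζ (cl G : Sc p E) c = 0 := by
      linear_combination h1
    have h2 := congrArg (X Ω ζ (cl v : Sc p E)) e1
    rw [X_comp hζ, X_comp hζ] at h2
    have hcv : X Ω ζ (cl v : Sc p E) c = X Ω ζ (cl v : Sc p E) σ := by
      linear_combination h2
    have h3 := congrArg γ e1
    rw [hγ2, hγ2, hσ, hτ, zero_mul, one_mul, add_zero, hcv] at h3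
    have hcγ : γ c = γ σ - X Ω ζ (cl v : Sc p E) σ := by
      linear_combination h3
    have h4 : σ (τ y) = ex (algebraMap E Ω ζ) (γ c) * τ y := by
      rw [← AlgEquiv.mul_apply, ← e1, AlgEquiv.mul_apply, hy c hcG, map_mul, ex_fix]
    rw [map_div₀, map_mul, h4, X_eq hζ hs σ, hy σ hσ, hcγ]
    have h5 : ex (algebraMap E Ω ζ) (γ σ - X Ω ζ (cl v : Sc p E) σ) *
        ex (algebraMap E Ω ζ) (X Ω ζ (cl v : Sc p E) σ) = ex (algebraMap E Ω ζ) (γ σ) := by
      rw [← ex_add hξ, sub_add_cancel]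
    have h6 := ex_ne hξ (γ σ)
    rw [div_eq_div_iff (mul_ne_zero h6 hy0) hy0]
    linear_combination τ y * s * y * h5
  obtain ⟨a, ha⟩ := val_fixed hζ hpE hz₀ hG hτ (div_ne_zero (mul_ne_zero hτy0 hs0) hy0) hz
  have hyv : (Sw E Ω).valuation y ≠ 0 := (Valuation.ne_zero_iff _).2 hy0
  rw [map_div₀, map_mul, Sw_map, mul_div_cancel_left₀ _ hyv] at ha
  refine ⟨a, ?_⟩
  have h1 : (Sw E Ω).valuation (algebraMap E Ω v) = (Sw E Ω).valuation (algebraMap E Ω (a ^ p)) := by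
    rw [← hs, map_pow, ha, map_pow, map_pow]
  rw [← map_pow, le_antisymm_iff, ← Sw_alg (Ω := Ω), ← Sw_alg (Ω := Ω), ← le_antisymm_iff]
  exact h1

end

end Pool.Agent.Helper58.BP
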