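import Mathlib
import Pool.Agent.Helper58.BP.Unr
import Pool.Agent.Helper58.BP.Base

set_option autoImplicit false

/-! The theorem for homomorphisms of Galois groups. -/

namespace Pool.Agent.Helper58.BP

/-- `ρ σ` multiplies a root of `f` by the same power of the root of unity as `σ` multiplies
a root of `e` -/
def Sr {E Ω K L : Type} [Field E] [Field Ω] [Algebra E Ω] [Field K] [Field L] [Algebra K L]
    (p : ℕ) (ξ : K) (ζ : E) (ρ : (Ω ≃ₐ[E] Ω) →* (L ≃ₐ[K] L)) (f : K) (e : E) : Prop :=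
  ∃ (r : L) (t : Ω), r ^ p = algebraMap K L f ∧ t ^ p = algebraMap E Ω e ∧
    ∀ σ : Ω ≃ₐ[E] Ω, ∃ n : ℕ, ρ σ r = algebraMap K L ξ ^ n * r ∧ σ t = algebraMap E Ω ζ ^ n * t

section

variable {p : ℕ} [Fact p.Prime] {E Ω : Type} [Field E] [Field Ω] [Algebra E Ω] [IsAlgClosed Ω]
  [IsGalois E Ω] {K L : Type} [Field K] [Field L] [Algebra K L] {ξ : K} {ζ : E}
  {ρ : (Ω ≃ₐ[E] Ω) →* (L ≃ₐ[K] L)}

/-- the composite of `ρ` and of the character of `f` is the character of the class `a` -/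
def Pa (ξ : K) (ζ : E) (ρ : (Ω ≃ₐ[E] Ω) →* (L ≃ₐ[K] L)) (f : K) (a : Sc p E) : Prop :=
  ∀ r : L, r ^ p = algebraMap K L f → ∀ σ : Ω ≃ₐ[E] Ω,
    ρ σ r = ex (algebraMap K L ξ) (X Ω ζ a σ) * r

lemma Pa_of (hξ : IsPrimitiveRoot ξ p) {f : K} (hf : f ≠ 0) {a : Sc p E} {r : L}
    (hr : r ^ p = algebraMap K L f)
    (h : ∀ σ : Ω ≃ₐ[E] Ω, ρ σ r = ex (algebraMap K L ξ) (X Ω ζ a σ) * r) :
    Pa ξ ζ ρ f a := by
  have hξL : IsPrimitiveRoot (algebraMap K L ξ) p :=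
    hξ.map_of_injective (algebraMap K L).injective
  intro r' hr' σ
  have hr0 : r ≠ 0 := by
    rintro rfl
    rw [zero_pow (Fact.out : p.Prime).ne_zero, eq_comm, map_eq_zero] at hr
    exact hf hr
  obtain ⟨m, rfl⟩ := exists_ex_mul hξL hr0 (hr'.trans hr.symm)
  rw [map_mul, ex_fix, h]
  ring

lemma Pa_mul (hζ : IsPrimitiveRoot ζ p) (hξ : IsPrimitiveRoot ξ p) {f g : K} (hf : f ≠ 0)
    (hg : g ≠ 0) (hL : ∀ f : K, ∃ r : L, r ^ p = algebraMap K L f) {a b : Sc p E}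
    (h1 : Pa ξ ζ ρ f a) (h2 : Pa ξ ζ ρ g b) : Pa ξ ζ ρ (f * g) (a * b) := by
  have hξL : IsPrimitiveRoot (algebraMap K L ξ) p :=
    hξ.map_of_injective (algebraMap K L).injective
  obtain ⟨r, hr⟩ := hL f
  obtain ⟨s, hs⟩ := hL g
  refine Pa_of hξ (mul_ne_zero hf hg) (r := r * s) (by rw [mul_pow, hr, hs, map_mul]) ?_
  intro σ
  rw [map_mul, h1 r hr, h2 s hs, X_mul hζ, ex_add hξL]
  ring

lemma Pa_uniq (hζ : IsPrimitiveRoot ζ p) (hξ : IsPrimitiveRoot ξ p) {f : K} (hf : f ≠ 0)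
    (hL : ∀ f : K, ∃ r : L, r ^ p = algebraMap K L f) {a b : Sc p E}
    (h1 : Pa ξ ζ ρ f a) (h2 : Pa ξ ζ ρ f b) : a = b := by
  have hξL : IsPrimitiveRoot (algebraMap K L ξ) p :=
    hξ.map_of_injective (algebraMap K L).injective
  obtain ⟨r, hr⟩ := hL f
  have hr0 : r ≠ 0 := by
    rintro rfl
    rw [zero_pow (Fact.out : p.Prime).ne_zero, eq_comm, map_eq_zero] at hr
    exact hf hr
  rw [← div_eq_one]
  apply X_zero (Ω := Ω) hζ
  intro σ
  rw [div_eq_mul_inv, X_mul hζ, X_inv hζ]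
  have h3 : X Ω ζ a σ = X Ω ζ b σ := by
    apply ex_mul_inj hξL hr0
    rw [← h1 r hr, ← h2 r hr]
  rw [h3, add_neg_cancel]

lemma Pa_exists (hζ : IsPrimitiveRoot ζ p) (hξ : IsPrimitiveRoot ξ p) (hρ : Continuous ρ) {f : K}
    (hf : f ≠ 0) (hL : ∀ f : K, ∃ r : L, r ^ p = algebraMap K L f) :
    ∃ a : Sc p E, Pa ξ ζ ρ f a := by
  have hp : p.Prime := Fact.out
  have hξL : IsPrimitiveRoot (algebraMap K L ξ) p :=
    hξ.map_of_injective (algebraMap K L).injective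
  have hζΩ : IsPrimitiveRoot (algebraMap E Ω ζ) p :=
    hζ.map_of_injective (algebraMap E Ω).injective
  obtain ⟨r, hr⟩ := hL f
  have hr0 : r ≠ 0 := by
    rintro rfl
    rw [zero_pow (Fact.out : p.Prime).ne_zero, eq_comm, map_eq_zero] at hr
    exact hf hr
  have hγ' : ∀ σ : Ω ≃ₐ[E] Ω, ∃ c : ZMod p, ρ σ r = ex (algebraMap K L ξ) c * r := by
    intro σ
    apply exists_ex_mul hξL hr0
    rw [← map_pow, hr, AlgEquiv.commutes]
  choose γ hγ using hγ'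
  have hadd : ∀ σ τ, γ (σ * τ) = γ σ + γ τ := by
    intro σ τ
    apply ex_mul_inj hξL hr0
    rw [← hγ, map_mul, AlgEquiv.mul_apply, hγ τ, map_mul, ex_fix, hγ σ, ex_add hξL]
    ring
  have hint : IsIntegral K r := by
    have : IsIntegral K (r ^ p) := by rw [hr]; exact isIntegral_algebraMap
    exact IsIntegral.of_pow hp.pos this
  have hfin : FiniteDimensional K (IntermediateField.adjoin K {r}) :=
    IntermediateField.adjoin.finiteDimensional hint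
  have hS : IsOpen (((IntermediateField.adjoin K {r}).fixingSubgroup.comap ρ :
      Subgroup (Ω ≃ₐ[E] Ω)) : Set (Ω ≃ₐ[E] Ω)) :=
    ((IntermediateField.adjoin K {r}).fixingSubgroup_isOpen).preimage hρ
  have hlc : IsLocallyConstant γ := by
    refine lc_of hS fun σ υ hυ => ?_
    rw [Subgroup.mem_comap, IntermediateField.mem_fixingSubgroup_iff] at hυ
    have h1 : γ υ = 0 := by
      apply ex_mul_inj hξL hr0
      rw [← hγ, ex_zero, one_mul]
      exact hυ r (IntermediateField.mem_adjoin_simple_self K r)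
    rw [hadd, h1, add_zero]
  obtain ⟨y, hy0, hy⟩ := kummer hζΩ (M := ⊤) (by simp) hlc
    (fun σ _ τ _ => hadd σ τ)
  obtain ⟨e, he⟩ := (InfiniteGalois.mem_range_algebraMap_iff_fixed (k := E) (y ^ p)).2 (fun σ => by
    rw [map_pow, hy σ (Subgroup.mem_top σ), mul_pow, ex_pow hζΩ, one_mul])
  have he0 : e ≠ 0 := by
    rintro rfl
    rw [map_zero, eq_comm] at he
    exact hy0 (pow_eq_zero_iff hp.ne_zero |>.1 he)
  refine ⟨cl (Units.mk0 e he0), Pa_of hξ hf hr fun σ => ?_⟩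
  rw [X_uniq hζ (t := y) (by rw [Units.val_mk0, he]) (hy σ (Subgroup.mem_top σ)), hγ]

lemma Sr_iff (hζ : IsPrimitiveRoot ζ p) (hξ : IsPrimitiveRoot ξ p) {f : K} (hf : f ≠ 0)
    (hL : ∀ f : K, ∃ r : L, r ^ p = algebraMap K L f) (e : Eˣ) :
    Sr p ξ ζ ρ f (e : E) ↔ Pa ξ ζ ρ f (cl e : Sc p E) := by
  have hξL : IsPrimitiveRoot (algebraMap K L ξ) p :=
    hξ.map_of_injective (algebraMap K L).injective
  have hζΩ : IsPrimitiveRoot (algebraMap E Ω ζ) p :=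
    hζ.map_of_injective (algebraMap E Ω).injective
  constructor
  · rintro ⟨r, t, hr, ht, h⟩
    refine Pa_of hξ hf hr fun σ => ?_
    obtain ⟨n, h1, h2⟩ := h σ
    rw [X_uniq hζ ht (c := (n : ZMod p)) (by rw [ex_nat hζΩ, h2]), ex_nat hξL, h1]
  · intro h
    obtain ⟨r, hr⟩ := hL f
    obtain ⟨t, ht⟩ := exists_root (p := p) (Ω := Ω) e
    exact ⟨r, t, hr, ht, fun σ => ⟨(X Ω ζ (cl e : Sc p E) σ).val, h r hr σ, X_eq hζ ht σ⟩⟩

/-- the homomorphism to the classes of a homomorphism of Galois groups -/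
theorem exists_phi (hζ : IsPrimitiveRoot ζ p) (hξ : IsPrimitiveRoot ξ p) (hρ : Continuous ρ)
    (hL : ∀ f : K, ∃ r : L, r ^ p = algebraMap K L f) :
    ∃ φ : Kˣ →* Sc p E, ∀ (f : Kˣ) (a : Sc p E), φ f = a ↔ Pa ξ ζ ρ (f : K) a := by
  choose m hm using fun f : Kˣ => Pa_exists hζ hξ hρ f.ne_zero hL
  refine ⟨MonoidHom.mk' m fun f g => ?_, fun f a => ⟨?_, fun h => ?_⟩⟩
  · refine Pa_uniq hζ hξ (mul_ne_zero f.ne_zero g.ne_zero) hL ?_
      (Pa_mul hζ hξ f.ne_zero g.ne_zero hL (hm f) (hm g))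
    rw [← Units.val_mul]
    exact hm (f * g)
  · rintro rfl
    exact hm f
  · exact Pa_uniq hζ hξ f.ne_zero hL (hm f) h

end

/-- the homomorphism of Galois groups is given by the place -/
def KPlace.Galois {E Ω K L : Type} [Field E] [Field Ω] [Algebra E Ω] [Field K] [Field L]
    [Algebra K L] {k : Type} [Field k] {j : k →+* K} {i : k →+* E} (P : KPlace j i) (p : ℕ) (ζ : k)
    (ρ : (Ω ≃ₐ[E] Ω) →* (L ≃ₐ[K] L)) : Prop :=
  ∀ f : P.ring, P.hom f ≠ 0 → Sr p (j ζ) (i ζ) ρ (f : K) (P.hom f)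

theorem gal {p : ℕ} (hp : p.Prime) {E : Type} [NontriviallyNormedField E] [IsUltrametricDist E]
    [LocallyCompactSpace E] (hpE : ‖(p : E)‖ < 1) {Ω : Type} [Field Ω]
    [Algebra E Ω] [IsAlgClosed Ω] [IsGalois E Ω] {k : Type} [Field k] {ζ : k}
    (hζ : IsPrimitiveRoot ζ p)
    (i : k →+* E) (hi : DenseRange i) {K : Type} [Field K] (j : k →+* K) {L : Type} [Field L]
    [Algebra K L] (hL : ∀ f : K, ∃ r : L, r ^ p = algebraMap K L f)
    (hL1 : ∀ r : L, (∃ f : K, r ^ p = algebraMap K L f) → ∃ w : L, w ^ p = 1 - r)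
    (ρ : (Ω ≃ₐ[E] Ω) →* (L ≃ₐ[K] L)) (hρ : Continuous ρ)
    (hk : ∀ c : k, c ≠ 0 → Sr p (j ζ) (i ζ) ρ (j c) (i c)) :
    ∃! P : KPlace j i, P.Galois p ζ ρ := by
  have _ : Fact p.Prime := ⟨hp⟩
  have _ : ProperSpace E := ProperSpace.of_locallyCompactSpace E
  have _ : CompleteSpace E := inferInstance
  have hζE : IsPrimitiveRoot (i ζ) p := hζ.map_of_injective i.injective
  have hζK : IsPrimitiveRoot (j ζ) p := hζ.map_of_injective j.injective
  have hζL : IsPrimitiveRoot (algebraMap K L (j ζ)) p :=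
    hζK.map_of_injective (algebraMap K L).injective
  obtain ⟨ζ', hζ'⟩ : ∃ ζ' : kˣ, (ζ' : k) = ζ := ⟨Units.mk0 ζ (hζ.ne_zero hp.ne_zero), Units.val_mk0 _⟩
  have hζu : IsPrimitiveRoot ζ' p := by
    rw [← IsPrimitiveRoot.coe_units_iff, hζ']
    exact hζ
  obtain ⟨φ, hφ⟩ := exists_phi hζE hζK hρ hL
  have hφ' : ∀ (f : Kˣ) (e : Eˣ), φ f = cl e ↔ Sr p (j ζ) (i ζ) ρ (f : K) (e : E) := by
    intro f e
    rw [hφ, Sr_iff hζE hζK f.ne_zero hL]
  have hr : Rl i j (Nc Ω hζE) φ := by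
    refine ⟨fun c => ?_, fun f g hfg => ?_⟩
    · rw [hφ']
      exact hk c c.ne_zero
    · rw [mem_Nc]
      obtain ⟨r, hr⟩ := hL f
      obtain ⟨s, hs⟩ := hL g
      exact stb hρ hζL f.ne_zero g.ne_zero hfg hL1 hr hs
        (fun σ => (hφ f (φ f)).1 rfl r hr σ) (fun σ => (hφ g (φ g)).1 rfl s hs σ)
  obtain ⟨P, hP, hPu⟩ := base hp hpE i hi hζu j (N := Nc Ω hζE) (Nc_symm hζE) (Nc_sum hζE)
    (by
      intro G z hz hG hG1 v hv
      rw [hζ'] at hG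
      exact even hζE hpE hz hG hG1 hv) φ hr
  have hiff : ∀ Q : KPlace j i, Q.Gives φ ↔ Q.Galois p ζ ρ := by
    intro Q
    constructor
    · intro hQ f hf
      have hf0 : (f : K) ≠ 0 := by
        intro e
        apply hf
        have : f = 0 := Subtype.ext e
        rw [this, map_zero]
      exact (hφ' (Units.mk0 _ hf0) (Units.mk0 _ hf)).1 (hQ _ _ f.2 rfl)
    · intro hQ u e hu he
      rw [hφ']
      have := hQ ⟨u, hu⟩ (by rw [he]; exact e.ne_zero)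
      rwa [he] at this
  exact ⟨P, (hiff P).1 hP, fun Q hQ => hPu Q ((hiff Q).2 hQ)⟩

end Pool.Agent.Helper58.BP
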